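import Mathlib

namespace Pool.Agent.Results.MP_52fefc_lc.ListsFromPolynomials

open Finset

/-- The sign `+1` for `true`, `-1` for `false`. -/
def sgn (b : Bool) : ℝ := if b then 1 else -1

/-- The value at `x` of the decision list whose `k`-th literal is true exactly when
`x (i k) = s k` (so the literal is `x_{i k}` if `s k` is true and `1 - x_{i k}` otherwise), with
outputs `b k` and default output `b'`: the output at the least satisfied literal, the default
output if no literal is satisfied. -/
noncomputable def listValue {n r : ℕ} (i : Fin r → Fin n) (s : Fin r → Bool)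
    (b : Fin r → Bool) (b' : Bool) (x : Fin n → Bool) : ℝ :=
  if h : (univ.filter (fun k : Fin r => x (i k) = s k)).Nonempty
  then sgn (b ((univ.filter (fun k : Fin r => x (i k) = s k)).min' h)) else sgn b'

/-- The class of decision lists of length `r` on `{0,1}^n`. -/
def DecisionLists (n r : ℕ) : Set ((Fin n → Bool) → ℝ) :=
  {f | ∃ (i : Fin r → Fin n) (s : Fin r → Bool) (b : Fin r → Bool) (b' : Bool),
      f = listValue i s b b'}

/-- The class of `r`-sparse halfspaces on `{0,1}^n`. -/
def SparseHalfspaces (n r : ℕ) : Set ((Fin n → Bool) → ℝ) :=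
  {f | ∃ (w : Fin n → ℝ) (θ : ℝ), (univ.filter (fun j => w j ≠ 0)).card ≤ r ∧
      ∀ x, f x = if θ ≤ ∑ j, w j * (if x j then 1 else 0) then 1 else -1}

/-- `D` is a probability distribution on `{0,1}^n`. -/
def IsDistribution {n : ℕ} (D : (Fin n → Bool) → ℝ) : Prop :=
  (∀ x, 0 ≤ D x) ∧ ∑ x, D x = 1

/-- `SQ-DIM(𝒞, γ) ≥ N`: for some distribution there are `N` distinct functions in the class
with all pairwise correlations at most `γ` in absolute value. -/
def SQDimAtLeast {n : ℕ} (𝒞 : Set ((Fin n → Bool) → ℝ)) (γ : ℝ) (N : ℕ) : Prop :=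
  ∃ D : (Fin n → Bool) → ℝ, IsDistribution D ∧ ∃ f : Fin N → ((Fin n → Bool) → ℝ),
    Function.Injective f ∧ (∀ a, f a ∈ 𝒞) ∧
    ∀ a b, a ≠ b → |∑ x, D x * (f a x * f b x)| ≤ γ

lemma sgn_mul_self (b : Bool) : sgn b * sgn b = 1 := by
  cases b <;> simp [sgn]

lemma abs_sgn (b : Bool) : |sgn b| = 1 := by
  cases b <;> simp [sgn]

lemma sgn_not (b : Bool) : sgn (!b) = - sgn b := by
  cases b <;> simp [sgn]

lemma listValue_least {n r : ℕ} (i : Fin r → Fin n) (s : Fin r → Bool)
    (b : Fin r → Bool) (b' : Bool) (x : Fin n → Bool) (k : Fin r) (hk : x (i k) = s k)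
    (hlt : ∀ j < k, x (i j) ≠ s j) : listValue i s b b' x = sgn (b k) := by
  have hmem : k ∈ univ.filter (fun k : Fin r => x (i k) = s k) := by simp [hk]
  have hne : (univ.filter (fun k : Fin r => x (i k) = s k)).Nonempty := ⟨k, hmem⟩
  have hmin : (univ.filter (fun k : Fin r => x (i k) = s k)).min' hne = k := by
    apply le_antisymm
    · exact Finset.min'_le _ _ hmem
    · apply Finset.le_min'
      intro j hj
      by_contra hcon
      exact hlt j (not_le.mp hcon) (by simpa using hj)
  unfold listValue
  rw [dif_pos hne, hmin]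

lemma listValue_none {n r : ℕ} (i : Fin r → Fin n) (s : Fin r → Bool)
    (b : Fin r → Bool) (b' : Bool) (x : Fin n → Bool)
    (hno : ∀ j, x (i j) ≠ s j) : listValue i s b b' x = sgn b' := by
  unfold listValue
  rw [dif_neg]
  rintro ⟨k, hk⟩
  exact hno k (by simpa using hk)

/-! ### Halfspace representation -/

lemma abs_weight_le : ∀ (r : ℕ) (b : Fin r → Bool) (b' : Bool) (y : Fin r → Bool),
    |∑ k : Fin r, sgn (b k) * 2 ^ (r - (k : ℕ)) * (if y k then (1 : ℝ) else 0) + sgn b'|
      ≤ 2 ^ (r + 1) - 1
  | 0, b, b', y => by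
      simp [abs_sgn]; norm_num
  | r + 1, b, b', y => by
      have ih := abs_weight_le r (fun k => b k.succ) b' (fun k => y k.succ)
      rw [Fin.sum_univ_succ]
      have e : ∀ k : Fin r, sgn (b k.succ) * 2 ^ (r + 1 - ((k.succ : Fin (r + 1)) : ℕ)) *
          (if y k.succ then (1 : ℝ) else 0) =
          sgn (b k.succ) * 2 ^ (r - (k : ℕ)) * (if y k.succ then (1 : ℝ) else 0) := by
        intro k
        have : r + 1 - ((k.succ : Fin (r + 1)) : ℕ) = r - (k : ℕ) := by
          simp [Fin.val_succ]
        rw [this]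
      rw [Finset.sum_congr rfl (fun k _ => e k), add_assoc]
      refine (abs_add_le _ _).trans ?_
      have h1 : |sgn (b 0) * 2 ^ (r + 1 - ((0 : Fin (r + 1)) : ℕ)) *
          (if y 0 then (1 : ℝ) else 0)| ≤ 2 ^ (r + 1) := by
        rw [abs_mul, abs_mul, abs_sgn]
        have : |if y 0 then (1 : ℝ) else 0| ≤ 1 := by
          split_ifs <;> simp
        have h2 : |(2 : ℝ) ^ (r + 1 - ((0 : Fin (r + 1)) : ℕ))| = 2 ^ (r + 1) := by
          simp
        rw [h2, one_mul]
        calc (2 : ℝ) ^ (r + 1) * |if y 0 then (1 : ℝ) else 0| ≤ 2 ^ (r + 1) * 1 := by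
              gcongr
          _ = 2 ^ (r + 1) := by ring
      have h3 : (2 : ℝ) ^ (r + 1 + 1) = 2 ^ (r + 1) + 2 ^ (r + 1) := by ring
      rw [h3]
      linarith

lemma weight_sign : ∀ (r : ℕ) (b : Fin r → Bool) (b' : Bool) (y : Fin r → Bool) (k0 : Fin r),
    y k0 = true → (∀ j < k0, y j = false) →
    0 < sgn (b k0) *
      (∑ k : Fin r, sgn (b k) * 2 ^ (r - (k : ℕ)) * (if y k then (1 : ℝ) else 0) + sgn b')
  | 0, b, b', y, k0, _, _ => k0.elim0
  | r + 1, b, b', y, k0, hk, hlt => by
      have ihA := abs_weight_le r (fun k => b k.succ) b' (fun k => y k.succ)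
      have e : ∀ k : Fin r, sgn (b k.succ) * 2 ^ (r + 1 - ((k.succ : Fin (r + 1)) : ℕ)) *
          (if y k.succ then (1 : ℝ) else 0) =
          sgn (b k.succ) * 2 ^ (r - (k : ℕ)) * (if y k.succ then (1 : ℝ) else 0) := by
        intro k
        have : r + 1 - ((k.succ : Fin (r + 1)) : ℕ) = r - (k : ℕ) := by
          simp [Fin.val_succ]
        rw [this]
      rw [Fin.sum_univ_succ, Finset.sum_congr rfl (fun k _ => e k)]
      rcases Fin.eq_zero_or_eq_succ k0 with h0 | ⟨k1, h1⟩
      · subst h0
        rw [if_pos hk]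
        set V := ∑ k : Fin r, sgn (b k.succ) * 2 ^ (r - (k : ℕ)) *
          (if y k.succ then (1 : ℝ) else 0) with hV
        have hb := sgn_mul_self (b 0)
        have h2 : ((2 : ℝ) ^ (r + 1 - ((0 : Fin (r + 1)) : ℕ))) = 2 ^ (r + 1) := by simp
        rw [h2]
        have h4 : |sgn (b 0) * (V + sgn b')| ≤ 2 ^ (r + 1) - 1 := by
          rw [abs_mul, abs_sgn, one_mul]; exact ihA
        have h5 := (abs_le.mp h4).1
        have h6 : sgn (b 0) * (sgn (b 0) * 2 ^ (r + 1) * 1 + V + sgn b') =
            (sgn (b 0) * sgn (b 0)) * 2 ^ (r + 1) + sgn (b 0) * (V + sgn b') := by ring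
        rw [h6, hb]
        linarith
      · subst h1
        have h0 : y 0 = false := hlt 0 (Fin.succ_pos k1)
        rw [h0]
        have ih := weight_sign r (fun k => b k.succ) b' (fun k => y k.succ) k1 hk
          (fun j hj => hlt j.succ (Fin.succ_lt_succ_iff.mpr hj))
        simpa using ih

/-- A decision list with positive literals on distinct variables is an `r`-sparse halfspace. -/
lemma listValue_mem_halfspaces {n r : ℕ} (i : Fin r → Fin n)
    (b : Fin r → Bool) (b' : Bool) :
    listValue i (fun _ => true) b b' ∈ SparseHalfspaces n r := by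
  classical
  refine ⟨fun j => ∑ k : Fin r, if i k = j then sgn (b k) * 2 ^ (r - (k : ℕ)) else 0,
    - sgn b', ?_, ?_⟩
  · have hsub : univ.filter (fun j : Fin n =>
        (∑ k : Fin r, if i k = j then sgn (b k) * 2 ^ (r - (k : ℕ)) else 0) ≠ 0) ⊆
        univ.image i := by
      intro j hj
      rw [Finset.mem_filter] at hj
      by_contra hcon
      apply hj.2
      apply Finset.sum_eq_zero
      intro k _
      rw [if_neg]
      intro h
      exact hcon (Finset.mem_image.mpr ⟨k, mem_univ _, h⟩)
    calc _ ≤ (univ.image i).card := Finset.card_le_card hsub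
      _ ≤ (univ : Finset (Fin r)).card := Finset.card_image_le
      _ = r := by simp
  · intro x
    have hsum : ∑ j : Fin n, (∑ k : Fin r, if i k = j then sgn (b k) * 2 ^ (r - (k : ℕ)) else 0) *
        (if x j then (1 : ℝ) else 0) =
        ∑ k : Fin r, sgn (b k) * 2 ^ (r - (k : ℕ)) * (if x (i k) then (1 : ℝ) else 0) := by
      simp_rw [Finset.sum_mul]
      rw [Finset.sum_comm]
      apply Finset.sum_congr rfl
      intro k _
      rw [Finset.sum_eq_single (i k)]
      · rw [if_pos rfl]
      · intro j _ hj
        rw [if_neg (Ne.symm hj), zero_mul]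
      · intro h; exact absurd (mem_univ _) h
    rw [hsum]
    set V := ∑ k : Fin r, sgn (b k) * 2 ^ (r - (k : ℕ)) * (if x (i k) then (1 : ℝ) else 0) with hV
    have key : ∀ B : Bool, 0 < sgn B * (V + sgn b') →
        sgn B = if - sgn b' ≤ V then (1 : ℝ) else -1 := by
      intro B hB
      cases B
      · rw [if_neg]
        · simp [sgn]
        · intro h
          have : sgn false = -1 := by simp [sgn]
          rw [this] at hB
          linarith
      · rw [if_pos]
        · simp [sgn]
        · have : sgn true = 1 := by simp [sgn]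
          rw [this] at hB
          linarith
    by_cases hex : ∃ k, x (i k) = true
    · -- least satisfied index
      have hne : (univ.filter (fun k : Fin r => x (i k) = true)).Nonempty := by
        obtain ⟨k, hk⟩ := hex
        exact ⟨k, by simp [hk]⟩
      set k0 := (univ.filter (fun k : Fin r => x (i k) = true)).min' hne with hk0
      have hmem : x (i k0) = true := by
        have := Finset.min'_mem _ hne
        rw [← hk0] at this
        simpa using this
      have hlt : ∀ j < k0, x (i j) = false := by
        intro j hj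
        by_contra hcon
        have hj' : j ∈ univ.filter (fun k : Fin r => x (i k) = true) := by
          simp; simpa using hcon
        have := Finset.min'_le _ _ hj'
        rw [← hk0] at this
        exact absurd hj (not_lt.mpr this)
      rw [listValue_least i (fun _ => true) b b' x k0 hmem
        (fun j hj => by rw [hlt j hj]; simp)]
      apply key
      exact weight_sign r b b' (fun k => x (i k)) k0 hmem hlt
    · push Not at hex
      rw [listValue_none i (fun _ => true) b b' x hex]
      apply key
      have hV0 : V = 0 := by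
        rw [hV]
        apply Finset.sum_eq_zero
        intro k _
        have : x (i k) = false := by simpa using hex k
        rw [this]; simp
      rw [hV0, zero_add, sgn_mul_self]
      norm_num

/-! ### The hard distribution -/

/-- alternating outputs -/
def par (k : ℕ) : Bool := decide (k % 2 = 0)

lemma sgn_par_succ (k : ℕ) : sgn (par (k + 1)) = - sgn (par k) := by
  unfold par sgn
  rcases Nat.mod_two_eq_zero_or_one k with h | h
  · have h1 : (k + 1) % 2 = 1 := by omega
    simp [h, h1]
  · have h1 : (k + 1) % 2 = 0 := by omega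
    simp [h, h1]

/-- The point of the cube attached to a rank `k0` and bits `u`. -/
def pt (n q : ℕ) (k0 : ℕ) (u : ZMod q → Bool) : Fin n → Bool := fun j =>
  if (j : ℕ) / q < k0 then false else if (j : ℕ) / q = k0 then u ((j : ℕ) : ZMod q) else true

/-- The variable used by the list `S` at position `k`. -/
def vr {n q r : ℕ} [NeZero q] (h : r * q ≤ n) (S : Fin r → ZMod q) (k : Fin r) : Fin n :=
  ⟨(k : ℕ) * q + (S k).val, by
    have h1 : (S k).val < q := ZMod.val_lt _
    have h2 : ((k : ℕ) + 1) * q ≤ r * q := Nat.mul_le_mul_right q k.isLt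
    have h3 : ((k : ℕ) + 1) * q = (k : ℕ) * q + q := by ring
    omega⟩

lemma vr_div {n q r : ℕ} [NeZero q] (h : r * q ≤ n) (S : Fin r → ZMod q) (k : Fin r) :
    ((vr h S k : Fin n) : ℕ) / q = k := by
  have h1 : (S k).val < q := ZMod.val_lt _
  have hq : 0 < q := Nat.pos_of_ne_zero (NeZero.ne q)
  show ((k : ℕ) * q + (S k).val) / q = k
  rw [mul_comm, Nat.mul_add_div hq, Nat.div_eq_of_lt h1, add_zero]

lemma vr_cast {n q r : ℕ} [NeZero q] (h : r * q ≤ n) (S : Fin r → ZMod q) (k : Fin r) :
    ((((vr h S k : Fin n) : ℕ) : ℕ) : ZMod q) = S k := by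
  show (((k : ℕ) * q + (S k).val : ℕ) : ZMod q) = S k
  push_cast
  simp

lemma value_pt {n q r : ℕ} [NeZero q] (h : r * q ≤ n) (S : Fin r → ZMod q) (k0 : Fin r)
    (u : ZMod q → Bool) :
    listValue (vr h S) (fun _ => true) (fun k => par k) (par r) (pt n q k0 u) =
      sgn (par k0) * sgn (u (S k0)) := by
  have hlow : ∀ j < k0, pt n q k0 u (vr h S j) = false := by
    intro j hj
    unfold pt
    rw [vr_div, if_pos (by exact_mod_cast hj)]
  have hmid : pt n q k0 u (vr h S k0) = u (S k0) := by
    unfold pt
    rw [vr_div, if_neg (lt_irrefl _), if_pos rfl, vr_cast]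
  have hhigh : ∀ j, k0 < j → pt n q k0 u (vr h S j) = true := by
    intro j hj
    unfold pt
    have hj' : (k0 : ℕ) < (j : ℕ) := by exact_mod_cast hj
    rw [vr_div, if_neg (by omega), if_neg (by omega)]
  cases hu : u (S k0)
  · -- bit false: next position
    have hmid' : pt n q k0 u (vr h S k0) = false := by rw [hmid, hu]
    have hsg : sgn (par (k0 : ℕ)) * sgn false = sgn (par ((k0 : ℕ) + 1)) := by
      rw [sgn_par_succ]; simp [sgn]
    rw [hsg]
    by_cases hr : (k0 : ℕ) + 1 < r
    · rw [listValue_least (vr h S) (fun _ => true) (fun k => par k) (par r) (pt n q k0 u)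
        ⟨(k0 : ℕ) + 1, hr⟩]
      · apply hhigh
        rw [Fin.lt_def]
        simp
      · intro j hj
        rcases lt_trichotomy j k0 with h1 | h1 | h1
        · rw [hlow j h1]; simp
        · rw [h1, hmid']; simp
        · exfalso
          rw [Fin.lt_def] at hj h1
          simp at hj
          omega
    · have hr' : (k0 : ℕ) + 1 = r := by
        have := k0.isLt
        omega
      rw [listValue_none, hr']
      intro j
      rcases lt_trichotomy j k0 with h1 | h1 | h1
      · rw [hlow j h1]; simp
      · rw [h1, hmid']; simp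
      · exfalso
        rw [Fin.lt_def] at h1
        have := j.isLt
        omega
  · have hmid' : pt n q k0 u (vr h S k0) = true := by rw [hmid, hu]
    rw [listValue_least (vr h S) (fun _ => true) (fun k => par k) (par r) (pt n q k0 u) k0 hmid'
      (fun j hj => by rw [hlow j hj]; simp)]
    simp [sgn]

/-- The law of `pt k0 u` for uniform `(k0, u)`. -/
noncomputable def law (n q r : ℕ) [NeZero q] (x : Fin n → Bool) : ℝ :=
  (∑ p : Fin r × (ZMod q → Bool), if pt n q p.1 p.2 = x then (1 : ℝ) else 0) /
    ((r : ℝ) * 2 ^ q)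

lemma card_bits (q : ℕ) [NeZero q] : (Fintype.card (ZMod q → Bool) : ℝ) = 2 ^ q := by
  simp [ZMod.card]

lemma sum_law {n q r : ℕ} [NeZero q] (g : (Fin n → Bool) → ℝ) :
    ∑ x, law n q r x * g x =
      (∑ k : Fin r, ∑ u : ZMod q → Bool, g (pt n q k u)) / ((r : ℝ) * 2 ^ q) := by
  unfold law
  rw [← Fintype.sum_prod_type' (fun (k : Fin r) (u : ZMod q → Bool) => g (pt n q k u))]
  have : ∀ x : Fin n → Bool,
      (∑ p : Fin r × (ZMod q → Bool), if pt n q p.1 p.2 = x then (1 : ℝ) else 0) /
        ((r : ℝ) * 2 ^ q) * g x =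
      (∑ p : Fin r × (ZMod q → Bool), if pt n q p.1 p.2 = x then g x else 0) /
        ((r : ℝ) * 2 ^ q) := by
    intro x
    rw [div_mul_eq_mul_div, Finset.sum_mul]
    congr 1
    apply Finset.sum_congr rfl
    intro p _
    split_ifs <;> simp
  rw [Finset.sum_congr rfl (fun x _ => this x), ← Finset.sum_div, Finset.sum_comm]
  congr 1
  apply Finset.sum_congr rfl
  intro p _
  simp

lemma law_isDistribution {n q r : ℕ} [NeZero q] (hr : 1 ≤ r) :
    IsDistribution (law n q r) := by
  constructor
  · intro x
    unfold law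
    apply div_nonneg
    · apply Finset.sum_nonneg
      intro p _
      split_ifs <;> norm_num
    · positivity
  · have h := sum_law (n := n) (q := q) (r := r) (fun _ => (1 : ℝ))
    simp only [mul_one] at h
    rw [h]
    have hr0 : (r : ℝ) ≠ 0 := by
      have : (0 : ℝ) < r := by exact_mod_cast hr
      exact ne_of_gt this
    simp only [Finset.sum_const, Finset.card_univ, nsmul_eq_mul, mul_one, Fintype.card_fin]
    rw [card_bits]
    field_simp

lemma sum_bits {q : ℕ} [NeZero q] (s t : ZMod q) :
    ∑ u : ZMod q → Bool, sgn (u s) * sgn (u t) = if s = t then 2 ^ q else 0 := by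
  classical
  split_ifs with h
  · subst h
    simp only [sgn_mul_self, Finset.sum_const, Finset.card_univ, nsmul_eq_mul, mul_one]
    rw [card_bits]
  · -- flip the bit at `s`
    have hinv : ∑ u : ZMod q → Bool, sgn (u s) * sgn (u t) =
        ∑ u : ZMod q → Bool, - (sgn (u s) * sgn (u t)) := by
      apply Finset.sum_nbij' (fun u => Function.update u s (!(u s)))
        (fun u => Function.update u s (!(u s)))
      · intro u _; exact mem_univ _
      · intro u _; exact mem_univ _
      · intro u _
        ext z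
        by_cases hz : z = s
        · subst hz; simp
        · simp [hz]
      · intro u _
        ext z
        by_cases hz : z = s
        · subst hz; simp
        · simp [hz]
      · intro u _
        have ht : t ≠ s := fun h' => h h'.symm
        simp [Function.update_self, Function.update_of_ne ht, sgn_not]
    rw [Finset.sum_neg_distrib] at hinv
    linarith

lemma corr_eq {n q r : ℕ} [NeZero q] (h : r * q ≤ n) (S T : Fin r → ZMod q) :
    ∑ x, law n q r x * (listValue (vr h S) (fun _ => true) (fun k => par k) (par r) x *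
      listValue (vr h T) (fun _ => true) (fun k => par k) (par r) x) =
      ((univ.filter (fun k : Fin r => S k = T k)).card : ℝ) / r := by
  rw [sum_law (fun x => listValue (vr h S) (fun _ => true) (fun k => par k) (par r) x *
      listValue (vr h T) (fun _ => true) (fun k => par k) (par r) x)]
  have h1 : ∀ k : Fin r, ∑ u : ZMod q → Bool,
      (listValue (vr h S) (fun _ => true) (fun k => par k) (par r) (pt n q k u) *
        listValue (vr h T) (fun _ => true) (fun k => par k) (par r) (pt n q k u)) =
      if S k = T k then 2 ^ q else 0 := by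
    intro k
    rw [← sum_bits]
    apply Finset.sum_congr rfl
    intro u _
    rw [value_pt, value_pt]
    have := sgn_mul_self (par k)
    calc sgn (par k) * sgn (u (S k)) * (sgn (par k) * sgn (u (T k))) =
        (sgn (par k) * sgn (par k)) * (sgn (u (S k)) * sgn (u (T k))) := by ring
      _ = _ := by rw [this, one_mul]
  rw [Finset.sum_congr rfl (fun k _ => h1 k), ← Finset.sum_filter, Finset.sum_const,
    nsmul_eq_mul]
  rw [mul_div_mul_right]
  positivity

/-! ### Reed-Solomon positions -/

/-- Evaluation of the polynomial with coefficients `a` at the point `k`. -/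
def ev {q d r : ℕ} (a : Fin d → ZMod q) (k : Fin r) : ZMod q :=
  ∑ i : Fin d, a i * ((k : ℕ) : ZMod q) ^ (i : ℕ)

lemma agree_card {q d r : ℕ} [Fact q.Prime] (hrq : r ≤ q) (hd : 1 ≤ d)
    (a b : Fin d → ZMod q) (hab : a ≠ b) :
    (univ.filter (fun k : Fin r => ev a k = ev b k)).card ≤ d - 1 := by
  classical
  set P : Polynomial (ZMod q) :=
    ∑ i : Fin d, Polynomial.C (a i - b i) * Polynomial.X ^ (i : ℕ) with hP
  have hcoeff : ∀ i : Fin d, P.coeff i = a i - b i := by
    intro i
    rw [hP, Polynomial.finsetSum_coeff, Finset.sum_eq_single i]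
    · rw [Polynomial.coeff_C_mul, Polynomial.coeff_X_pow, if_pos rfl, mul_one]
    · intro j _ hj
      rw [Polynomial.coeff_C_mul, Polynomial.coeff_X_pow, if_neg, mul_zero]
      intro h
      exact hj (Fin.ext h.symm)
    · intro h; exact absurd (mem_univ _) h
  have hP0 : P ≠ 0 := by
    intro h0
    apply hab
    funext i
    have := hcoeff i
    rw [h0, Polynomial.coeff_zero] at this
    exact sub_eq_zero.mp this.symm
  have hdeg : P.natDegree < d := by
    have h1 : P.degree < d := Polynomial.degree_sum_fin_lt _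
    exact (Polynomial.natDegree_lt_iff_degree_lt hP0).mpr h1
  have hev : ∀ x : ZMod q, P.eval x = ∑ i : Fin d, (a i - b i) * x ^ (i : ℕ) := by
    intro x
    rw [hP, Polynomial.eval_finsetSum]
    apply Finset.sum_congr rfl
    intro i _
    simp
  have hinj : Set.InjOn (fun k : Fin r => ((k : ℕ) : ZMod q))
      (univ.filter (fun k : Fin r => ev a k = ev b k) : Finset (Fin r)) := by
    intro k _ l _ hkl
    have hk : (k : ℕ) < q := lt_of_lt_of_le k.isLt hrq
    have hl : (l : ℕ) < q := lt_of_lt_of_le l.isLt hrq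
    have h2 : ((k : ℕ) : ZMod q) = ((l : ℕ) : ZMod q) := hkl
    rw [ZMod.natCast_eq_natCast_iff'] at h2
    rw [Nat.mod_eq_of_lt hk, Nat.mod_eq_of_lt hl] at h2
    exact Fin.ext h2
  have hsub : (univ.filter (fun k : Fin r => ev a k = ev b k)).image
      (fun k : Fin r => ((k : ℕ) : ZMod q)) ⊆ P.roots.toFinset := by
    intro z hz
    rw [Finset.mem_image] at hz
    obtain ⟨k, hk, rfl⟩ := hz
    rw [Finset.mem_filter] at hk
    rw [Multiset.mem_toFinset, Polynomial.mem_roots hP0, Polynomial.IsRoot.def, hev]
    have := hk.2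
    unfold ev at this
    simp_rw [sub_mul]
    rw [Finset.sum_sub_distrib, this, sub_self]
  calc (univ.filter (fun k : Fin r => ev a k = ev b k)).card
      = ((univ.filter (fun k : Fin r => ev a k = ev b k)).image
          (fun k : Fin r => ((k : ℕ) : ZMod q))).card :=
        (Finset.card_image_of_injOn hinj).symm
    _ ≤ P.roots.toFinset.card := Finset.card_le_card hsub
    _ ≤ Multiset.card P.roots := Multiset.toFinset_card_le _
    _ ≤ P.natDegree := Polynomial.card_roots' P
    _ ≤ d - 1 := by omega

/-- For all `1 ≤ d ≤ r` and `n ≥ 4 r²`, the class of functions on `{0,1}^n` which are decision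
lists of length `r` and at the same time `r`-sparse halfspaces has statistical query dimension
at least `n^{d/2}` at correlation threshold `(d-1)/r`. -/
theorem result (d r n : ℕ) (hd : 1 ≤ d) (hdr : d ≤ r) (hn : 4 * r ^ 2 ≤ n) :
    ∃ N : ℕ, n ^ d ≤ N ^ 2 ∧
      SQDimAtLeast (DecisionLists n r ∩ SparseHalfspaces n r) (((d : ℝ) - 1) / r) N := by
  classical
  have hr1 : 1 ≤ r := le_trans hd hdr
  set m := n / (2 * r) with hm
  have hm2 : 2 * r ≤ m := by
    rw [hm, Nat.le_div_iff_mul_le (by omega)]
    nlinarith
  have hm0 : m ≠ 0 := by omega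
  obtain ⟨q, hqp, hmq, hq2⟩ := Nat.exists_prime_lt_and_le_two_mul m hm0
  have : Fact q.Prime := ⟨hqp⟩
  have : NeZero q := ⟨hqp.ne_zero⟩
  have hrq : r ≤ q := by omega
  have hmn : 2 * r * m ≤ n := by
    rw [hm]; exact Nat.mul_div_le n (2 * r)
  have hle : r * q ≤ n := by
    calc r * q ≤ r * (2 * m) := Nat.mul_le_mul_left r hq2
      _ = 2 * r * m := by ring
      _ ≤ n := hmn
  have hlt : n < 2 * r * q := by
    have h1 : n < 2 * r * (m + 1) := by
      rw [hm]
      exact Nat.lt_mul_div_succ n (by omega)
    calc n < 2 * r * (m + 1) := h1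
      _ ≤ 2 * r * q := Nat.mul_le_mul_left _ hmq
  have hqn : n ≤ q ^ 2 := by
    by_contra hcon
    push Not at hcon
    have h1 : n * n < (2 * r * q) * (2 * r * q) := Nat.mul_lt_mul_of_lt_of_lt hlt hlt
    have h2 : (2 * r * q) * (2 * r * q) = (4 * r ^ 2) * q ^ 2 := by ring
    have h3 : (4 * r ^ 2) * q ^ 2 ≤ n * q ^ 2 := Nat.mul_le_mul_right _ hn
    have h4 : n * q ^ 2 ≤ n * n := Nat.mul_le_mul_left n hcon.le
    omega
  have hcard : Fintype.card (Fin d → ZMod q) = q ^ d := by
    simp [ZMod.card]
  set e : Fin (q ^ d) ≃ (Fin d → ZMod q) := (Fintype.equivFinOfCardEq hcard).symm with he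
  set F : Fin (q ^ d) → ((Fin n → Bool) → ℝ) := fun a =>
    listValue (vr hle (ev (r := r) (e a))) (fun _ => true) (fun k => par k) (par r) with hF
  have hr0 : (0 : ℝ) < r := by exact_mod_cast hr1
  have hcorr : ∀ a b : Fin (q ^ d), a ≠ b →
      |∑ x, law n q r x * (F a x * F b x)| ≤ ((d : ℝ) - 1) / r := by
    intro a b hab
    have hne : e a ≠ e b := fun h => hab (e.injective h)
    have hc := agree_card (r := r) hrq hd (e a) (e b) hne
    rw [hF]
    simp only
    rw [corr_eq, abs_of_nonneg (by positivity)]
    have h1 : ((univ.filter (fun k : Fin r => ev (e a) k = ev (e b) k)).card : ℝ) ≤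
        (d : ℝ) - 1 := by
      have h2 : ((univ.filter (fun k : Fin r => ev (e a) k = ev (e b) k)).card : ℝ) ≤
          ((d - 1 : ℕ) : ℝ) := by exact_mod_cast hc
      rw [Nat.cast_sub hd] at h2
      simpa using h2
    exact div_le_div_of_nonneg_right h1 hr0.le
  have hself : ∀ a : Fin (q ^ d), ∑ x, law n q r x * (F a x * F a x) = 1 := by
    intro a
    rw [hF]
    simp only
    rw [corr_eq]
    simp
    omega
  refine ⟨q ^ d, ?_, law n q r, law_isDistribution hr1, F, ?_, ?_, hcorr⟩
  · calc n ^ d ≤ (q ^ 2) ^ d := Nat.pow_le_pow_left hqn d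
      _ = (q ^ d) ^ 2 := by ring
  · intro a b hab
    by_contra hne
    have h1 := hcorr a b hne
    rw [← hab, hself a, abs_one, le_div_iff₀ hr0] at h1
    have h2 : (d : ℝ) ≤ r := by exact_mod_cast hdr
    linarith
  · intro a
    exact ⟨⟨_, _, _, _, rfl⟩, listValue_mem_halfspaces _ _ _⟩

end Pool.Agent.Results.MP_52fefc_lc.ListsFromPolynomials
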