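import Mathlib

namespace Pool.Agent.Results.MP_52fefc_lc.PoincareDistributions

open Finset

/-- The sign `+1` for `true`, `-1` for `false`. -/
def sgn (b : Bool) : ℝ := if b then 1 else -1

/-- The value at `x` of the decision list whose `k`-th literal is true exactly when
`x (i k) = s k` (so the literal is `x_{i k}` if `s k` is true and `1 - x_{i k}` otherwise), with
outputs `b k` and default output `b'`: the output at the least satisfied literal, the default
output if no literal is satisfied. -/
noncomputable def listValue {n r : ℕ} (i : Fin r → Fin n) (s : Fin r → Bool)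
    (b : Fin r → Bool) (b' : Bool) (x : Fin n → Bool) : ℝ :=
  if h : (univ.filter (fun k : Fin r => x (i k) = s k)).Nonempty
  then sgn (b ((univ.filter (fun k : Fin r => x (i k) = s k)).min' h)) else sgn b'

/-- The class of decision lists of length `r` on `{0,1}^n`. -/
def DecisionLists (n r : ℕ) : Set ((Fin n → Bool) → ℝ) :=
  {f | ∃ (i : Fin r → Fin n) (s : Fin r → Bool) (b : Fin r → Bool) (b' : Bool),
      f = listValue i s b b'}

/-- The class of `r`-sparse halfspaces on `{0,1}^n`. -/
def SparseHalfspaces (n r : ℕ) : Set ((Fin n → Bool) → ℝ) :=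
  {f | ∃ (w : Fin n → ℝ) (θ : ℝ), (univ.filter (fun j => w j ≠ 0)).card ≤ r ∧
      ∀ x, f x = if θ ≤ ∑ j, w j * (if x j then 1 else 0) then 1 else -1}

/-- `D` is a probability distribution on `{0,1}^n`. -/
def IsDistribution {n : ℕ} (D : (Fin n → Bool) → ℝ) : Prop :=
  (∀ x, 0 ≤ D x) ∧ ∑ x, D x = 1

/-- The point `x` with its `i`-th coordinate flipped. -/
def flipAt {n : ℕ} (i : Fin n) (x : Fin n → Bool) : Fin n → Bool :=
  Function.update x i (!(x i))

/-- The expected conditional variance `E_D[Var(f | all coordinates except the i-th)]`: a pair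
`{x, flipAt i x}` with masses `a, b` contributes `a b / (a + b) * (f x - f (flipAt i x))^2`, and
every such pair occurs twice in the sum. -/
noncomputable def condVar {n : ℕ} (D : (Fin n → Bool) → ℝ) (i : Fin n)
    (f : (Fin n → Bool) → ℝ) : ℝ :=
  1 / 2 * ∑ x, D x * D (flipAt i x) / (D x + D (flipAt i x)) * (f x - f (flipAt i x)) ^ 2

/-- `D` satisfies the Poincare (Efron-Stein) inequality with constant `K`. -/
def Poincare {n : ℕ} (D : (Fin n → Bool) → ℝ) (K : ℝ) : Prop :=
  ∀ f : (Fin n → Bool) → ℝ,
    ∑ x, D x * f x ^ 2 - (∑ x, D x * f x) ^ 2 ≤ K * ∑ i, condVar D i f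

/-- `SQ-DIM(𝒞, D, γ) ≥ N`. -/
def SQDimDistAtLeast {n : ℕ} (𝒞 : Set ((Fin n → Bool) → ℝ)) (D : (Fin n → Bool) → ℝ)
    (γ : ℝ) (N : ℕ) : Prop :=
  ∃ f : Fin N → ((Fin n → Bool) → ℝ), Function.Injective f ∧ (∀ a, f a ∈ 𝒞) ∧
    ∀ a b, a ≠ b → |∑ x, D x * (f a x * f b x)| ≤ γ

lemma sgn_mul_self (b : Bool) : sgn b * sgn b = 1 := by
  cases b <;> simp [sgn]

lemma abs_sgn (b : Bool) : |sgn b| = 1 := by
  cases b <;> simp [sgn]

lemma listValue_least {n r : ℕ} (i : Fin r → Fin n) (s : Fin r → Bool)
    (b : Fin r → Bool) (b' : Bool) (x : Fin n → Bool) (k : Fin r) (hk : x (i k) = s k)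
    (hlt : ∀ j < k, x (i j) ≠ s j) : listValue i s b b' x = sgn (b k) := by
  have hmem : k ∈ univ.filter (fun k : Fin r => x (i k) = s k) := by simp [hk]
  have hne : (univ.filter (fun k : Fin r => x (i k) = s k)).Nonempty := ⟨k, hmem⟩
  have hmin : (univ.filter (fun k : Fin r => x (i k) = s k)).min' hne = k := by
    apply le_antisymm
    · exact Finset.min'_le _ _ hmem
    · apply Finset.le_min'
      intro j hj
      by_contra hcon
      exact hlt j (not_le.mp hcon) (by simpa using hj)
  unfold listValue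
  rw [dif_pos hne, hmin]

lemma listValue_none {n r : ℕ} (i : Fin r → Fin n) (s : Fin r → Bool)
    (b : Fin r → Bool) (b' : Bool) (x : Fin n → Bool)
    (hno : ∀ j, x (i j) ≠ s j) : listValue i s b b' x = sgn b' := by
  unfold listValue
  rw [dif_neg]
  rintro ⟨k, hk⟩
  exact hno k (by simpa using hk)

/-! ### Decision lists are halfspaces -/

lemma abs_weight_le : ∀ (r : ℕ) (b : Fin r → Bool) (b' : Bool) (y : Fin r → Bool),
    |∑ k : Fin r, sgn (b k) * 2 ^ (r - (k : ℕ)) * (if y k then (1 : ℝ) else 0) + sgn b'|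
      ≤ 2 ^ (r + 1) - 1
  | 0, b, b', y => by
      simp [abs_sgn]; norm_num
  | r + 1, b, b', y => by
      have ih := abs_weight_le r (fun k => b k.succ) b' (fun k => y k.succ)
      rw [Fin.sum_univ_succ]
      have e : ∀ k : Fin r, sgn (b k.succ) * 2 ^ (r + 1 - ((k.succ : Fin (r + 1)) : ℕ)) *
          (if y k.succ then (1 : ℝ) else 0) =
          sgn (b k.succ) * 2 ^ (r - (k : ℕ)) * (if y k.succ then (1 : ℝ) else 0) := by
        intro k
        have : r + 1 - ((k.succ : Fin (r + 1)) : ℕ) = r - (k : ℕ) := by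
          simp [Fin.val_succ]
        rw [this]
      rw [Finset.sum_congr rfl (fun k _ => e k), add_assoc]
      refine (abs_add_le _ _).trans ?_
      have h1 : |sgn (b 0) * 2 ^ (r + 1 - ((0 : Fin (r + 1)) : ℕ)) *
          (if y 0 then (1 : ℝ) else 0)| ≤ 2 ^ (r + 1) := by
        rw [abs_mul, abs_mul, abs_sgn]
        have : |if y 0 then (1 : ℝ) else 0| ≤ 1 := by
          split_ifs <;> simp
        have h2 : |(2 : ℝ) ^ (r + 1 - ((0 : Fin (r + 1)) : ℕ))| = 2 ^ (r + 1) := by
          simp
        rw [h2, one_mul]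
        calc (2 : ℝ) ^ (r + 1) * |if y 0 then (1 : ℝ) else 0| ≤ 2 ^ (r + 1) * 1 := by
              gcongr
          _ = 2 ^ (r + 1) := by ring
      have h3 : (2 : ℝ) ^ (r + 1 + 1) = 2 ^ (r + 1) + 2 ^ (r + 1) := by ring
      rw [h3]
      linarith

lemma weight_sign : ∀ (r : ℕ) (b : Fin r → Bool) (b' : Bool) (y : Fin r → Bool) (k0 : Fin r),
    y k0 = true → (∀ j < k0, y j = false) →
    0 < sgn (b k0) *
      (∑ k : Fin r, sgn (b k) * 2 ^ (r - (k : ℕ)) * (if y k then (1 : ℝ) else 0) + sgn b')
  | 0, b, b', y, k0, _, _ => k0.elim0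
  | r + 1, b, b', y, k0, hk, hlt => by
      have ihA := abs_weight_le r (fun k => b k.succ) b' (fun k => y k.succ)
      have e : ∀ k : Fin r, sgn (b k.succ) * 2 ^ (r + 1 - ((k.succ : Fin (r + 1)) : ℕ)) *
          (if y k.succ then (1 : ℝ) else 0) =
          sgn (b k.succ) * 2 ^ (r - (k : ℕ)) * (if y k.succ then (1 : ℝ) else 0) := by
        intro k
        have : r + 1 - ((k.succ : Fin (r + 1)) : ℕ) = r - (k : ℕ) := by
          simp [Fin.val_succ]
        rw [this]
      rw [Fin.sum_univ_succ, Finset.sum_congr rfl (fun k _ => e k)]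
      rcases Fin.eq_zero_or_eq_succ k0 with h0 | ⟨k1, h1⟩
      · subst h0
        rw [if_pos hk]
        set V := ∑ k : Fin r, sgn (b k.succ) * 2 ^ (r - (k : ℕ)) *
          (if y k.succ then (1 : ℝ) else 0) with hV
        have hb := sgn_mul_self (b 0)
        have h2 : ((2 : ℝ) ^ (r + 1 - ((0 : Fin (r + 1)) : ℕ))) = 2 ^ (r + 1) := by simp
        rw [h2]
        have h4 : |sgn (b 0) * (V + sgn b')| ≤ 2 ^ (r + 1) - 1 := by
          rw [abs_mul, abs_sgn, one_mul]; exact ihA
        have h5 := (abs_le.mp h4).1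
        have h6 : sgn (b 0) * (sgn (b 0) * 2 ^ (r + 1) * 1 + V + sgn b') =
            (sgn (b 0) * sgn (b 0)) * 2 ^ (r + 1) + sgn (b 0) * (V + sgn b') := by ring
        rw [h6, hb]
        linarith
      · subst h1
        have h0 : y 0 = false := hlt 0 (Fin.succ_pos k1)
        rw [h0]
        have ih := weight_sign r (fun k => b k.succ) b' (fun k => y k.succ) k1 hk
          (fun j hj => hlt j.succ (Fin.succ_lt_succ_iff.mpr hj))
        simpa using ih

/-- Every decision list of length `r` is an `r`-sparse halfspace. -/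
lemma decisionLists_subset (n r : ℕ) : DecisionLists n r ⊆ SparseHalfspaces n r := by
  classical
  rintro f ⟨i, s, b, b', rfl⟩
  refine ⟨fun j => ∑ k : Fin r, if i k = j then sgn (s k) * (sgn (b k) * 2 ^ (r - (k : ℕ))) else 0,
    - sgn b' - ∑ k : Fin r, (if s k then 0 else sgn (b k) * 2 ^ (r - (k : ℕ))), ?_, ?_⟩
  · have hsub : univ.filter (fun j : Fin n =>
        (∑ k : Fin r, if i k = j then sgn (s k) * (sgn (b k) * 2 ^ (r - (k : ℕ))) else 0) ≠ 0) ⊆
        univ.image i := by
      intro j hj
      rw [Finset.mem_filter] at hj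
      by_contra hcon
      apply hj.2
      apply Finset.sum_eq_zero
      intro k _
      rw [if_neg]
      intro h
      exact hcon (Finset.mem_image.mpr ⟨k, mem_univ _, h⟩)
    calc _ ≤ (univ.image i).card := Finset.card_le_card hsub
      _ ≤ (univ : Finset (Fin r)).card := Finset.card_image_le
      _ = r := by simp
  · intro x
    have hsum : ∑ j : Fin n, (∑ k : Fin r, if i k = j then
          sgn (s k) * (sgn (b k) * 2 ^ (r - (k : ℕ))) else 0) *
        (if x j then (1 : ℝ) else 0) =
        ∑ k : Fin r, sgn (s k) * (sgn (b k) * 2 ^ (r - (k : ℕ))) *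
          (if x (i k) then (1 : ℝ) else 0) := by
      simp_rw [Finset.sum_mul]
      rw [Finset.sum_comm]
      apply Finset.sum_congr rfl
      intro k _
      rw [Finset.sum_eq_single (i k)]
      · rw [if_pos rfl]
      · intro j _ hj
        rw [if_neg (Ne.symm hj), zero_mul]
      · intro h; exact absurd (mem_univ _) h
    rw [hsum]
    set V := ∑ k : Fin r, sgn (b k) * 2 ^ (r - (k : ℕ)) *
      (if (decide (x (i k) = s k)) then (1 : ℝ) else 0) with hV
    have hVeq : ∑ k : Fin r, sgn (s k) * (sgn (b k) * 2 ^ (r - (k : ℕ))) *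
          (if x (i k) then (1 : ℝ) else 0) +
          ∑ k : Fin r, (if s k then 0 else sgn (b k) * 2 ^ (r - (k : ℕ))) = V := by
      rw [hV, ← Finset.sum_add_distrib]
      apply Finset.sum_congr rfl
      intro k _
      cases hs : s k <;> cases hx : x (i k) <;> simp [sgn]
      split_ifs <;> ring
    have hcond : (- sgn b' - ∑ k : Fin r, (if s k then 0 else sgn (b k) * 2 ^ (r - (k : ℕ))) ≤
        ∑ k : Fin r, sgn (s k) * (sgn (b k) * 2 ^ (r - (k : ℕ))) *
          (if x (i k) then (1 : ℝ) else 0)) ↔ - sgn b' ≤ V := by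
      rw [← hVeq]
      constructor <;> intro h <;> linarith
    simp only [hcond]
    have key : ∀ B : Bool, 0 < sgn B * (V + sgn b') →
        sgn B = if - sgn b' ≤ V then (1 : ℝ) else -1 := by
      intro B hB
      cases B
      · rw [if_neg]
        · simp [sgn]
        · intro h
          have : sgn false = -1 := by simp [sgn]
          rw [this] at hB
          linarith
      · rw [if_pos]
        · simp [sgn]
        · have : sgn true = 1 := by simp [sgn]
          rw [this] at hB
          linarith
    by_cases hex : ∃ k, x (i k) = s k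
    · have hne : (univ.filter (fun k : Fin r => x (i k) = s k)).Nonempty := by
        obtain ⟨k, hk⟩ := hex
        exact ⟨k, by simp [hk]⟩
      set k0 := (univ.filter (fun k : Fin r => x (i k) = s k)).min' hne with hk0
      have hmem : x (i k0) = s k0 := by
        have := Finset.min'_mem _ hne
        rw [← hk0] at this
        simpa using this
      have hlt : ∀ j < k0, x (i j) ≠ s j := by
        intro j hj hcon
        have hj' : j ∈ univ.filter (fun k : Fin r => x (i k) = s k) := by
          simp [hcon]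
        have := Finset.min'_le _ _ hj'
        rw [← hk0] at this
        exact absurd hj (not_lt.mpr this)
      rw [listValue_least i s b b' x k0 hmem hlt]
      apply key
      exact weight_sign r b b' (fun k => decide (x (i k) = s k)) k0 (by simp [hmem])
        (fun j hj => by simp [hlt j hj])
    · push Not at hex
      rw [listValue_none i s b b' x hex]
      apply key
      have hV0 : V = 0 := by
        rw [hV]
        apply Finset.sum_eq_zero
        intro k _
        simp [hex k]
      rw [hV0, zero_add, sgn_mul_self]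
      norm_num

/-! ### One-coordinate correlations -/

lemma flip_flip {n : ℕ} (i : Fin n) (x : Fin n → Bool) : flipAt i (flipAt i x) = x := by
  unfold flipAt
  ext j
  by_cases h : j = i
  · subst h; simp
  · simp [h]

lemma flip_self {n : ℕ} (i : Fin n) (x : Fin n → Bool) : flipAt i x i = !(x i) := by
  simp [flipAt]

lemma sum_flip {n : ℕ} (i : Fin n) (F : (Fin n → Bool) → ℝ) :
    ∑ x, F (flipAt i x) = ∑ x, F x :=
  Equiv.sum_comp (Function.Involutive.toPerm (flipAt i) (flip_flip i)) F

/-- The centred coordinate `x_i - E[x_i | the other coordinates]`. -/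
noncomputable def cen {n : ℕ} (D : (Fin n → Bool) → ℝ) (i : Fin n) (x : Fin n → Bool) : ℝ :=
  sgn (x i) * (D (flipAt i x) / (D x + D (flipAt i x)))

lemma cen_abs {n : ℕ} {D : (Fin n → Bool) → ℝ} (hD : ∀ x, 0 ≤ D x) (i : Fin n)
    (x : Fin n → Bool) : |cen D i x| ≤ 1 := by
  unfold cen
  rw [abs_mul, abs_sgn, one_mul, abs_of_nonneg]
  · exact div_le_one_of_le₀ (by linarith [hD x]) (add_nonneg (hD x) (hD _))
  · exact div_nonneg (hD _) (add_nonneg (hD x) (hD _))

lemma corr_cen {n : ℕ} (D : (Fin n → Bool) → ℝ) (i : Fin n)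
    (f : (Fin n → Bool) → ℝ) (hf : ∀ x, f x = 1 ∨ f x = -1) (σ : Bool)
    (hσ : ∀ x, x i = true → 0 ≤ sgn σ * (f x - f (flipAt i x))) :
    sgn σ * ∑ x, D x * (f x * cen D i x) = 1 / 2 * condVar D i f := by
  set c : (Fin n → Bool) → ℝ := fun x => D x * D (flipAt i x) / (D x + D (flipAt i x)) with hc
  have hcs : ∀ x, c (flipAt i x) = c x := by
    intro x
    simp only [hc]
    rw [flip_flip, mul_comm (D (flipAt i x)), add_comm (D (flipAt i x))]
  have h1 : ∑ x, D x * (f x * cen D i x) = ∑ x, c x * (sgn (x i) * f x) := by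
    apply Finset.sum_congr rfl
    intro x _
    simp only [hc, cen]
    ring
  have h2 : ∑ x, c x * (sgn (x i) * f x) = ∑ x, c x * (- sgn (x i) * f (flipAt i x)) := by
    rw [← sum_flip i (fun x => c x * (sgn (x i) * f x))]
    apply Finset.sum_congr rfl
    intro x _
    rw [hcs, flip_self]
    cases x i <;> simp [sgn]
  have h3 : 2 * ∑ x, c x * (sgn (x i) * f x) =
      ∑ x, c x * (sgn (x i) * (f x - f (flipAt i x))) := by
    calc 2 * ∑ x, c x * (sgn (x i) * f x) =
        ∑ x, c x * (sgn (x i) * f x) + ∑ x, c x * (- sgn (x i) * f (flipAt i x)) := by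
          rw [← h2]; ring
      _ = _ := by
          rw [← Finset.sum_add_distrib]
          apply Finset.sum_congr rfl
          intro x _
          ring
  have h4 : ∀ x, sgn σ * (sgn (x i) * (f x - f (flipAt i x))) =
      1 / 2 * (f x - f (flipAt i x)) ^ 2 := by
    intro x
    have hx : 0 ≤ sgn σ * (sgn (x i) * (f x - f (flipAt i x))) := by
      cases hxi : x i
      · have := hσ (flipAt i x) (by rw [flip_self, hxi]; rfl)
        rw [flip_flip] at this
        have e : sgn σ * (sgn false * (f x - f (flipAt i x))) =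
            sgn σ * (f (flipAt i x) - f x) := by
          simp [sgn]
        rw [e]; exact this
      · have := hσ x hxi
        have e : sgn σ * (sgn true * (f x - f (flipAt i x))) =
            sgn σ * (f x - f (flipAt i x)) := by
          simp [sgn]
        rw [e]; exact this
    generalize x i = bi at hx ⊢
    clear hσ
    rcases hf x with h | h <;> rcases hf (flipAt i x) with h' | h' <;>
      rw [h, h'] at hx ⊢ <;> cases σ <;> cases bi <;> simp only [sgn] at hx ⊢ <;>
      first
        | norm_num at hx ⊢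
        | norm_num at hx
  have h5 : 2 * (sgn σ * ∑ x, D x * (f x * cen D i x)) =
      1 / 2 * ∑ x, c x * (f x - f (flipAt i x)) ^ 2 := by
    rw [h1]
    calc 2 * (sgn σ * ∑ x, c x * (sgn (x i) * f x)) =
        sgn σ * (2 * ∑ x, c x * (sgn (x i) * f x)) := by ring
      _ = sgn σ * ∑ x, c x * (sgn (x i) * (f x - f (flipAt i x))) := by rw [h3]
      _ = ∑ x, c x * (sgn σ * (sgn (x i) * (f x - f (flipAt i x)))) := by
          rw [Finset.mul_sum]
          apply Finset.sum_congr rfl
          intro x _
          ring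
      _ = ∑ x, c x * (1 / 2 * (f x - f (flipAt i x)) ^ 2) := by
          apply Finset.sum_congr rfl
          intro x _
          rw [h4]
      _ = _ := by
          rw [Finset.mul_sum]
          apply Finset.sum_congr rfl
          intro x _
          ring
  have h6 : condVar D i f = 1 / 2 * ∑ x, c x * (f x - f (flipAt i x)) ^ 2 := rfl
  rw [h6]
  linarith

/-! ### Sparse halfspaces are unate -/

lemma dot_flip {n : ℕ} (w : Fin n → ℝ) (i : Fin n) (x : Fin n → Bool) (hx : x i = true) :
    ∑ j, w j * (if x j then (1 : ℝ) else 0) =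
      ∑ j, w j * (if flipAt i x j then (1 : ℝ) else 0) + w i := by
  have h : ∀ j, w j * (if x j then (1 : ℝ) else 0) =
      w j * (if flipAt i x j then (1 : ℝ) else 0) + (if j = i then w i else 0) := by
    intro j
    by_cases hj : j = i
    · subst hj
      simp [flipAt, hx]
    · simp [flipAt, hj]
  rw [Finset.sum_congr rfl (fun j _ => h j), Finset.sum_add_distrib]
  simp

lemma halfspace_pm {n r : ℕ} {f : (Fin n → Bool) → ℝ} (hf : f ∈ SparseHalfspaces n r) :
    ∀ x, f x = 1 ∨ f x = -1 := by
  obtain ⟨w, θ, _, h⟩ := hf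
  intro x
  rw [h x]
  split_ifs <;> simp

/-- For a sparse halfspace every coordinate has a direction `σ i`, and the conditional variances
vanish off a set of at most `r` coordinates. -/
lemma halfspace_unate {n r : ℕ} {f : (Fin n → Bool) → ℝ} (hf : f ∈ SparseHalfspaces n r)
    (D : (Fin n → Bool) → ℝ) :
    ∃ (σ : Fin n → Bool) (J : Finset (Fin n)), J.card ≤ r ∧
      (∀ i x, x i = true → 0 ≤ sgn (σ i) * (f x - f (flipAt i x))) ∧
      (∀ i, i ∉ J → condVar D i f = 0) := by
  classical
  obtain ⟨w, θ, hc, h⟩ := hf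
  have hmono : ∀ x y : Fin n → Bool,
      ∑ j, w j * (if x j then (1 : ℝ) else 0) ≤ ∑ j, w j * (if y j then (1 : ℝ) else 0) →
      f x ≤ f y := by
    intro x y hxy
    rw [h x, h y]
    split_ifs with h1 h2 h2
    · exact le_refl _
    · exact absurd (le_trans h1 hxy) h2
    · norm_num
    · exact le_refl _
  refine ⟨fun i => decide (0 ≤ w i), univ.filter (fun j => w j ≠ 0), hc, ?_, ?_⟩
  · intro i x hx
    have hd := dot_flip w i x hx
    by_cases hw : 0 ≤ w i
    · have h1 : f (flipAt i x) ≤ f x := hmono _ _ (by linarith)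
      have h2 : sgn (decide (0 ≤ w i)) = 1 := by simp [sgn, hw]
      rw [h2]; linarith
    · have h1 : f x ≤ f (flipAt i x) := hmono _ _ (by linarith [not_le.mp hw])
      have h2 : sgn (decide (0 ≤ w i)) = -1 := by simp [sgn, hw]
      rw [h2]; linarith
  · intro i hi
    have hw : w i = 0 := by simpa using hi
    have heq : ∀ x, f x = f (flipAt i x) := by
      intro x
      cases hx : x i
      · have hd := dot_flip w i (flipAt i x) (by rw [flip_self, hx]; rfl)
        rw [flip_flip, hw, add_zero] at hd
        exact le_antisymm (hmono _ _ hd.ge) (hmono _ _ hd.le)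
      · have hd := dot_flip w i x hx
        rw [hw, add_zero] at hd
        exact le_antisymm (hmono _ _ hd.le) (hmono _ _ hd.ge)
    unfold condVar
    have : ∑ x, D x * D (flipAt i x) / (D x + D (flipAt i x)) *
        (f x - f (flipAt i x)) ^ 2 = 0 := by
      apply Finset.sum_eq_zero
      intro x _
      rw [← heq x]
      simp
    rw [this, mul_zero]

/-! ### Few functions correlate with one fixed function -/

lemma bessel {n : ℕ} {D : (Fin n → Bool) → ℝ} (hD : IsDistribution D) {ι : Type*}
    [DecidableEq ι] (S : Finset ι) (F : ι → (Fin n → Bool) → ℝ) (g : (Fin n → Bool) → ℝ)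
    (hF : ∀ a ∈ S, ∀ x, F a x = 1 ∨ F a x = -1) (hg : ∀ x, |g x| ≤ 1) (γ τ : ℝ) (hγ : 0 ≤ γ)
    (hτ : 0 ≤ τ)
    (hpair : ∀ a ∈ S, ∀ b ∈ S, a ≠ b → |∑ x, D x * (F a x * F b x)| ≤ γ)
    (hcorr : ∀ a ∈ S, τ ≤ ∑ x, D x * (F a x * g x)) :
    (S.card : ℝ) * (τ ^ 2 - γ) ≤ 1 := by
  obtain ⟨hD0, hD1⟩ := hD
  set m : ℝ := (S.card : ℝ) with hm
  have hm0 : 0 ≤ m := by positivity
  set u : (Fin n → Bool) → ℝ := fun x => ∑ a ∈ S, F a x with hu
  -- first moment
  have h1 : m * τ ≤ ∑ x, D x * (u x * g x) := by
    have e : ∑ x, D x * (u x * g x) = ∑ a ∈ S, ∑ x, D x * (F a x * g x) := by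
      rw [Finset.sum_comm]
      apply Finset.sum_congr rfl
      intro x _
      simp only [hu]
      rw [Finset.sum_mul, Finset.mul_sum]
    rw [e]
    calc m * τ = ∑ a ∈ S, τ := by rw [Finset.sum_const, nsmul_eq_mul]
      _ ≤ _ := Finset.sum_le_sum hcorr
  -- second moment
  have h2 : ∑ x, D x * u x ^ 2 ≤ m + m ^ 2 * γ := by
    have e : ∑ x, D x * u x ^ 2 = ∑ a ∈ S, ∑ b ∈ S, ∑ x, D x * (F a x * F b x) := by
      have e1 : ∀ x, D x * u x ^ 2 = ∑ a ∈ S, ∑ b ∈ S, D x * (F a x * F b x) := by
        intro x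
        simp only [hu]
        rw [sq, Finset.sum_mul_sum, Finset.mul_sum]
        apply Finset.sum_congr rfl
        intro a _
        rw [Finset.mul_sum]
      rw [Finset.sum_congr rfl (fun x _ => e1 x), Finset.sum_comm]
      apply Finset.sum_congr rfl
      intro a _
      rw [Finset.sum_comm]
    rw [e]
    have hb : ∀ a ∈ S, ∑ b ∈ S, ∑ x, D x * (F a x * F b x) ≤ 1 + m * γ := by
      intro a ha
      rw [← Finset.add_sum_erase S _ ha]
      have hself : ∑ x, D x * (F a x * F a x) = 1 := by
        rw [← hD1]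
        apply Finset.sum_congr rfl
        intro x _
        rcases hF a ha x with h | h <;> rw [h] <;> ring
      rw [hself]
      have hrest : ∑ b ∈ S.erase a, ∑ x, D x * (F a x * F b x) ≤ ∑ b ∈ S.erase a, γ := by
        apply Finset.sum_le_sum
        intro b hb
        have hbS := Finset.mem_of_mem_erase hb
        have hne := Finset.ne_of_mem_erase hb
        exact le_trans (le_abs_self _) (hpair a ha b hbS (Ne.symm hne))
      rw [Finset.sum_const, nsmul_eq_mul] at hrest
      have hle : ((S.erase a).card : ℝ) ≤ m := by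
        rw [hm]
        exact_mod_cast Finset.card_le_card (Finset.erase_subset a S)
      nlinarith
    calc ∑ a ∈ S, ∑ b ∈ S, ∑ x, D x * (F a x * F b x) ≤ ∑ a ∈ S, (1 + m * γ) :=
          Finset.sum_le_sum hb
      _ = m * (1 + m * γ) := by rw [Finset.sum_const, nsmul_eq_mul]
      _ = m + m ^ 2 * γ := by ring
  have h3 : ∑ x, D x * g x ^ 2 ≤ 1 := by
    rw [← hD1]
    apply Finset.sum_le_sum
    intro x _
    have : g x ^ 2 ≤ 1 := by
      rw [sq_le_one_iff_abs_le_one]; exact hg x
    nlinarith [hD0 x]
  -- the square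
  have h4 : 0 ≤ ∑ x, D x * (u x - m * τ * g x) ^ 2 :=
    Finset.sum_nonneg (fun x _ => mul_nonneg (hD0 x) (sq_nonneg _))
  have h5 : ∑ x, D x * (u x - m * τ * g x) ^ 2 = ∑ x, D x * u x ^ 2 -
      2 * (m * τ) * ∑ x, D x * (u x * g x) + (m * τ) ^ 2 * ∑ x, D x * g x ^ 2 := by
    rw [Finset.mul_sum, Finset.mul_sum, ← Finset.sum_sub_distrib, ← Finset.sum_add_distrib]
    apply Finset.sum_congr rfl
    intro x _
    ring
  rw [h5] at h4
  have h6 : 0 ≤ m * τ := mul_nonneg hm0 hτ
  have h7 : m ^ 2 * τ ^ 2 ≤ m + m ^ 2 * γ := by nlinarith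
  rcases eq_or_lt_of_le hm0 with h0 | hpos
  · rw [← h0]; simp
  · have h8 : m * (m * (τ ^ 2 - γ)) ≤ m * 1 := by nlinarith
    exact le_of_mul_le_mul_left h8 hpos

/-! ### The main bound -/

/-- The test function attached to a label: `± 1` for `none`, `±` the centred coordinate `i` for
`some i`. -/
noncomputable def test {n : ℕ} (D : (Fin n → Bool) → ℝ) (l : Option (Fin n) × Bool)
    (x : Fin n → Bool) : ℝ :=
  sgn l.2 * (match l.1 with
    | none => 1
    | some i => cen D i x)

lemma test_abs {n : ℕ} {D : (Fin n → Bool) → ℝ} (hD : ∀ x, 0 ≤ D x)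
    (l : Option (Fin n) × Bool) (x : Fin n → Bool) : |test D l x| ≤ 1 := by
  unfold test
  rw [abs_mul, abs_sgn, one_mul]
  rcases l with ⟨_ | i, s⟩
  · simp
  · exact cen_abs hD i x

/-- Threshold attached to a label. -/
noncomputable def thr {n : ℕ} (K : ℝ) (r : ℕ) (l : Option (Fin n) × Bool) : ℝ :=
  match l.1 with
  | none => 1 / 2
  | some _ => 3 / (8 * K * r)

lemma exists_label {n r : ℕ} (hr : 1 ≤ r) {K : ℝ} (hK : 1 ≤ K) {D : (Fin n → Bool) → ℝ}
    (hD : IsDistribution D) (hP : Poincare D K) {f : (Fin n → Bool) → ℝ}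
    (hf : f ∈ SparseHalfspaces n r) :
    ∃ l : Option (Fin n) × Bool, thr K r l ≤ ∑ x, D x * (f x * test D l x) := by
  classical
  by_contra hcon
  push Not at hcon
  have hpm := halfspace_pm hf
  obtain ⟨σ, J, hJ, hσ, hJ0⟩ := halfspace_unate hf D
  have hr0 : (0 : ℝ) < r := by exact_mod_cast hr
  -- mean
  have hplus := hcon (none, true)
  have hminus := hcon (none, false)
  have e1 : ∑ x, D x * (f x * test D (none, true) x) = ∑ x, D x * f x := by
    apply Finset.sum_congr rfl
    intro x _
    simp [test, sgn]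
  have e2 : ∑ x, D x * (f x * test D (none, false) x) = - ∑ x, D x * f x := by
    rw [← Finset.sum_neg_distrib]
    apply Finset.sum_congr rfl
    intro x _
    simp [test, sgn]
  rw [e1] at hplus
  rw [e2] at hminus
  simp only [thr] at hplus hminus
  have hmean : (∑ x, D x * f x) ^ 2 < 1 / 4 := by nlinarith
  have hsq : ∑ x, D x * f x ^ 2 = 1 := by
    rw [← hD.2]
    apply Finset.sum_congr rfl
    intro x _
    rcases hpm x with h | h <;> rw [h] <;> ring
  have hvar := hP f
  rw [hsq] at hvar
  -- coordinates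
  have hcoord : ∀ i, condVar D i f ≤ 2 * (3 / (8 * K * r)) := by
    intro i
    have h1 := hcon (some i, σ i)
    have h2 : ∑ x, D x * (f x * test D (some i, σ i) x) =
        sgn (σ i) * ∑ x, D x * (f x * cen D i x) := by
      rw [Finset.mul_sum]
      apply Finset.sum_congr rfl
      intro x _
      simp only [test]
      ring
    rw [h2, corr_cen D i f hpm (σ i) (hσ i)] at h1
    simp only [thr] at h1
    linarith
  have hsum : ∑ i, condVar D i f ≤ r * (2 * (3 / (8 * K * r))) := by
    have h1 : ∑ i, condVar D i f = ∑ i ∈ J, condVar D i f := by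
      symm
      apply Finset.sum_subset (Finset.subset_univ J)
      intro i _ hi
      exact hJ0 i hi
    rw [h1]
    have hpos : 0 ≤ 2 * (3 / (8 * K * (r : ℝ))) := by positivity
    calc ∑ i ∈ J, condVar D i f ≤ ∑ i ∈ J, 2 * (3 / (8 * K * (r : ℝ))) :=
          Finset.sum_le_sum (fun i _ => hcoord i)
      _ = (J.card : ℝ) * (2 * (3 / (8 * K * (r : ℝ)))) := by rw [Finset.sum_const, nsmul_eq_mul]
      _ ≤ r * (2 * (3 / (8 * K * (r : ℝ)))) := by
          apply mul_le_mul_of_nonneg_right _ hpos
          exact_mod_cast hJ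
  have hK0 : (0 : ℝ) < K := by linarith
  have hprod : K * ∑ i, condVar D i f ≤ 3 / 4 := by
    calc K * ∑ i, condVar D i f ≤ K * (r * (2 * (3 / (8 * K * (r : ℝ))))) :=
          mul_le_mul_of_nonneg_left hsum hK0.le
      _ = 3 / 4 := by field_simp; norm_num
  linarith

/-! ### Product distributions satisfy the Poincare inequality with constant `1` (Efron-Stein) -/

/-- The weight of the bit `b` for a coordinate with bias `t`. -/
def wt (t : ℝ) (b : Bool) : ℝ := if b then t else 1 - t

/-- The product distribution with biases `p`. -/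
def prodDist {n : ℕ} (p : Fin n → ℝ) (x : Fin n → Bool) : ℝ := ∏ i, wt (p i) (x i)

lemma sum_cons {n : ℕ} (F : (Fin (n + 1) → Bool) → ℝ) :
    ∑ x, F x = ∑ y : Fin n → Bool, (F (Fin.cons true y) + F (Fin.cons false y)) := by
  have h := Fintype.sum_equiv (Fin.consEquiv (fun _ : Fin (n + 1) => Bool))
    (fun z => F (Fin.cons z.1 z.2)) F (fun z => rfl)
  rw [← h, Fintype.sum_prod_type]
  simp only [Fintype.sum_bool]
  rw [← Finset.sum_add_distrib]

lemma prodDist_cons {n : ℕ} (p : Fin (n + 1) → ℝ) (b : Bool) (y : Fin n → Bool) :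
    prodDist p (Fin.cons b y) = wt (p 0) b * prodDist (fun i => p i.succ) y := by
  unfold prodDist
  rw [Fin.prod_univ_succ]
  simp

lemma prodDist_isDistribution : ∀ {n : ℕ} (p : Fin n → ℝ), (∀ i, 0 ≤ p i ∧ p i ≤ 1) →
    IsDistribution (prodDist p)
  | 0, p, _ => by
      constructor
      · intro x; simp [prodDist]
      · simp [prodDist]
  | n + 1, p, hp => by
      obtain ⟨ih0, ih1⟩ := prodDist_isDistribution (fun i => p (Fin.succ i))
        (fun i => hp i.succ)
      have hw : ∀ i b, 0 ≤ wt (p i) b := by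
        intro i b
        unfold wt
        have := hp i
        split_ifs <;> linarith
      constructor
      · intro x
        exact Finset.prod_nonneg (fun i _ => hw i (x i))
      · rw [sum_cons]
        have : ∀ y : Fin n → Bool, prodDist p (Fin.cons true y) + prodDist p (Fin.cons false y) =
            prodDist (fun i => p i.succ) y := by
          intro y
          rw [prodDist_cons, prodDist_cons]
          simp only [wt]
          simp only [if_true, Bool.false_eq_true, if_false]
          ring
        rw [Finset.sum_congr rfl (fun y _ => this y)]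
        exact ih1

lemma flip_cons_zero {n : ℕ} (b : Bool) (y : Fin n → Bool) :
    flipAt 0 (Fin.cons b y : Fin (n + 1) → Bool) = Fin.cons (!b) y := by
  unfold flipAt
  ext j
  refine Fin.cases ?_ (fun i => ?_) j
  · simp
  · simp [Function.update_of_ne (Fin.succ_ne_zero i)]

lemma flip_cons_succ {n : ℕ} (b : Bool) (y : Fin n → Bool) (i : Fin n) :
    flipAt i.succ (Fin.cons b y : Fin (n + 1) → Bool) = Fin.cons b (flipAt i y) := by
  unfold flipAt
  ext j
  refine Fin.cases ?_ (fun k => ?_) j
  · simp [Function.update_of_ne (Fin.succ_ne_zero i).symm]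
  · by_cases h : k = i
    · subst h; simp
    · have h' : k.succ ≠ i.succ := fun hh => h (Fin.succ_injective _ hh)
      simp [Function.update_of_ne h', Function.update_of_ne h]

/-- Efron-Stein: product distributions satisfy the Poincare inequality with constant `1`. -/
theorem prodDist_poincare : ∀ {n : ℕ} (p : Fin n → ℝ), (∀ i, 0 ≤ p i ∧ p i ≤ 1) →
    Poincare (prodDist p) 1
  | 0, p, _ => by
      intro f
      simp [prodDist]
  | n + 1, p, hp => by
      intro f
      have hQ := prodDist_isDistribution (fun i => p (Fin.succ i)) (fun i => hp i.succ)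
      have ih := prodDist_poincare (fun i => p (Fin.succ i)) (fun i => hp i.succ)
      set Q := prodDist (fun i => p (Fin.succ i)) with hQdef
      set t := p 0 with ht
      have ht0 : 0 ≤ t := (hp 0).1
      have ht1 : t ≤ 1 := (hp 0).2
      set f1 : (Fin n → Bool) → ℝ := fun y => f (Fin.cons true y) with hf1
      set f0 : (Fin n → Bool) → ℝ := fun y => f (Fin.cons false y) with hf0
      have hc1 : ∀ y, prodDist p (Fin.cons true y) = t * Q y := by
        intro y; rw [prodDist_cons]; simp [wt, ht, hQdef]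
      have hc0 : ∀ y, prodDist p (Fin.cons false y) = (1 - t) * Q y := by
        intro y; rw [prodDist_cons]; simp [wt, ht, hQdef]
      have e1 : ∑ x, prodDist p x * f x ^ 2 =
          t * ∑ y, Q y * f1 y ^ 2 + (1 - t) * ∑ y, Q y * f0 y ^ 2 := by
        rw [sum_cons, Finset.mul_sum, Finset.mul_sum, ← Finset.sum_add_distrib]
        apply Finset.sum_congr rfl
        intro y _
        rw [hc1, hc0]; ring
      have e2 : ∑ x, prodDist p x * f x =
          t * ∑ y, Q y * f1 y + (1 - t) * ∑ y, Q y * f0 y := by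
        rw [sum_cons, Finset.mul_sum, Finset.mul_sum, ← Finset.sum_add_distrib]
        apply Finset.sum_congr rfl
        intro y _
        rw [hc1, hc0]; ring
      have e3 : condVar (prodDist p) 0 f = t * (1 - t) * ∑ y, Q y * (f1 y - f0 y) ^ 2 := by
        unfold condVar
        rw [sum_cons, Finset.mul_sum, Finset.mul_sum]
        apply Finset.sum_congr rfl
        intro y _
        rw [flip_cons_zero, flip_cons_zero]
        simp only [Bool.not_true, Bool.not_false]
        rw [hc1, hc0]
        have hs : t * Q y + (1 - t) * Q y = Q y := by ring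
        have hs' : (1 - t) * Q y + t * Q y = Q y := by ring
        rw [hs, hs']
        by_cases hq : Q y = 0
        · rw [hq]; simp
        · simp only [hf1, hf0]
          field_simp
          ring
      have e4 : ∀ i : Fin n, condVar (prodDist p) i.succ f =
          t * condVar Q i f1 + (1 - t) * condVar Q i f0 := by
        intro i
        unfold condVar
        rw [sum_cons]
        have hone : ∀ (s : ℝ) (a b : ℝ), s * a * (s * b) / (s * a + s * b) =
            s * (a * b / (a + b)) := by
          intro s a b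
          by_cases hs : s = 0
          · subst hs; simp
          · rw [← mul_add]
            have : s * a * (s * b) = s * (s * (a * b)) := by ring
            rw [this, mul_div_mul_left _ _ hs, mul_div_assoc]
        have : ∀ y : Fin n → Bool,
            (prodDist p (Fin.cons true y) * prodDist p (flipAt i.succ (Fin.cons true y)) /
              (prodDist p (Fin.cons true y) + prodDist p (flipAt i.succ (Fin.cons true y))) *
              (f (Fin.cons true y) - f (flipAt i.succ (Fin.cons true y))) ^ 2 +
            prodDist p (Fin.cons false y) * prodDist p (flipAt i.succ (Fin.cons false y)) /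
              (prodDist p (Fin.cons false y) + prodDist p (flipAt i.succ (Fin.cons false y))) *
              (f (Fin.cons false y) - f (flipAt i.succ (Fin.cons false y))) ^ 2) =
            t * (Q y * Q (flipAt i y) / (Q y + Q (flipAt i y)) *
              (f1 y - f1 (flipAt i y)) ^ 2) +
            (1 - t) * (Q y * Q (flipAt i y) / (Q y + Q (flipAt i y)) *
              (f0 y - f0 (flipAt i y)) ^ 2) := by
          intro y
          rw [flip_cons_succ, flip_cons_succ, hc1, hc1, hc0, hc0, hone, hone]
          simp only [hf1, hf0]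
          ring
        rw [Finset.sum_congr rfl (fun y _ => this y), Finset.sum_add_distrib, ← Finset.mul_sum,
          ← Finset.mul_sum]
        ring
      -- Jensen
      have hJ : (∑ y, Q y * f1 y - ∑ y, Q y * f0 y) ^ 2 ≤ ∑ y, Q y * (f1 y - f0 y) ^ 2 := by
        set c := ∑ y, Q y * f1 y - ∑ y, Q y * f0 y with hc
        have h0 : 0 ≤ ∑ y, Q y * ((f1 y - f0 y) - c) ^ 2 :=
          Finset.sum_nonneg (fun y _ => mul_nonneg (hQ.1 y) (sq_nonneg _))
        have h1 : ∑ y, Q y * ((f1 y - f0 y) - c) ^ 2 =
            ∑ y, Q y * (f1 y - f0 y) ^ 2 - 2 * c * (∑ y, Q y * f1 y - ∑ y, Q y * f0 y) +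
              c ^ 2 * ∑ y, Q y := by
          rw [← Finset.sum_sub_distrib, Finset.mul_sum, Finset.mul_sum, ← Finset.sum_sub_distrib,
            ← Finset.sum_add_distrib]
          apply Finset.sum_congr rfl
          intro y _
          ring
        rw [h1, hQ.2, ← hc] at h0
        nlinarith
      have ih1 := ih f1
      have ih0 := ih f0
      rw [Fin.sum_univ_succ, e3, Finset.sum_congr rfl (fun i _ => e4 i), Finset.sum_add_distrib,
        ← Finset.mul_sum, ← Finset.mul_sum, e1, e2]
      set A1 := ∑ y, Q y * f1 y ^ 2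
      set A0 := ∑ y, Q y * f0 y ^ 2
      set m1 := ∑ y, Q y * f1 y
      set m0 := ∑ y, Q y * f0 y
      set V1 := ∑ i, condVar Q i f1
      set V0 := ∑ i, condVar Q i f0
      set B := ∑ y, Q y * (f1 y - f0 y) ^ 2
      have h1 : t * (A1 - m1 ^ 2) ≤ t * V1 := mul_le_mul_of_nonneg_left (by linarith) ht0
      have h2 : (1 - t) * (A0 - m0 ^ 2) ≤ (1 - t) * V0 :=
        mul_le_mul_of_nonneg_left (by linarith) (by linarith)
      have h3 : t * (1 - t) * (m1 - m0) ^ 2 ≤ t * (1 - t) * B :=
        mul_le_mul_of_nonneg_left hJ (mul_nonneg ht0 (by linarith))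
      nlinarith

/-- Suppose `D ≥ α D'` pointwise, where `D'` satisfies the Poincare inequality with constant
`K ≥ 1` and `α > 0`. Then every family of `r`-sparse halfspaces and length-`r` decision lists
with pairwise correlations at most `α² / (32 K² r²)` under `D` has at most
`(20 K² r² n + 10) / α²` members. -/
theorem result (n r : ℕ) (hr : 1 ≤ r) (K : ℝ) (hK : 1 ≤ K) (α : ℝ) (hα0 : 0 < α)
    (D D' : (Fin n → Bool) → ℝ) (hD : IsDistribution D) (hD' : IsDistribution D')
    (hdom : ∀ x, α * D' x ≤ D x) (hP : Poincare D' K) (N : ℕ)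
    (hN : SQDimDistAtLeast (SparseHalfspaces n r ∪ DecisionLists n r) D
      (α ^ 2 / (32 * K ^ 2 * r ^ 2)) N) :
    (N : ℝ) ≤ (20 * K ^ 2 * r ^ 2 * n + 10) / α ^ 2 := by
  classical
  obtain ⟨f, _, hmem, hpair⟩ := hN
  have hmem' : ∀ a, f a ∈ SparseHalfspaces n r := by
    intro a
    rcases hmem a with h | h
    · exact h
    · exact decisionLists_subset n r h
  have hr0 : (0 : ℝ) < r := by exact_mod_cast hr
  have hr1 : (1 : ℝ) ≤ r := by exact_mod_cast hr
  have hK0 : (0 : ℝ) < K := by linarith
  have hα2 : 0 < α ^ 2 := by positivity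
  choose lab hlab using fun a => exists_label hr hK hD' hP (hmem' a)
  set γ : ℝ := α ^ 2 / (32 * K ^ 2 * r ^ 2) with hγ
  have hγ0 : 0 ≤ γ := by positivity
  have hKr : 1 ≤ K ^ 2 * (r : ℝ) ^ 2 := by
    have h1 : 1 ≤ K ^ 2 := by nlinarith
    have h2 : 1 ≤ (r : ℝ) ^ 2 := by nlinarith
    nlinarith
  have hγ1 : γ ≤ α ^ 2 / 32 := by
    rw [hγ]
    apply div_le_div_of_nonneg_left hα2.le (by norm_num)
    nlinarith
  -- the reweighted test functions
  set h : Option (Fin n) × Bool → (Fin n → Bool) → ℝ :=
    fun l x => α * D' x / D x * test D' l x with hh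
  have habs : ∀ l x, |h l x| ≤ 1 := by
    intro l x
    simp only [hh]
    rw [abs_mul]
    have h1 : |α * D' x / D x| ≤ 1 := by
      rw [abs_of_nonneg (div_nonneg (mul_nonneg hα0.le (hD'.1 x)) (hD.1 x))]
      exact div_le_one_of_le₀ (hdom x) (hD.1 x)
    have h2 := test_abs hD'.1 l x
    calc |α * D' x / D x| * |test D' l x| ≤ 1 * 1 :=
          mul_le_mul h1 h2 (abs_nonneg _) (by norm_num)
      _ = 1 := by norm_num
  have hcorr : ∀ a, α * thr K r (lab a) ≤ ∑ x, D x * (f a x * h (lab a) x) := by
    intro a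
    have e : ∑ x, D x * (f a x * h (lab a) x) =
        α * ∑ x, D' x * (f a x * test D' (lab a) x) := by
      rw [Finset.mul_sum]
      apply Finset.sum_congr rfl
      intro x _
      simp only [hh]
      by_cases hx : D x = 0
      · have h1 : α * D' x ≤ 0 := by rw [← hx]; exact hdom x
        have h2 : D' x = 0 := by
          have := hD'.1 x
          nlinarith
        rw [hx, h2]; ring
      · field_simp
    rw [e]
    exact mul_le_mul_of_nonneg_left (hlab a) hα0.le
  have hfib : ∀ l : Option (Fin n) × Bool,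
      ((univ.filter (fun a => lab a = l)).card : ℝ) * ((α * thr K r l) ^ 2 - γ) ≤ 1 := by
    intro l
    apply bessel hD (univ.filter (fun a => lab a = l)) f (h l)
      (fun a _ => halfspace_pm (hmem' a)) (habs l) γ (α * thr K r l) hγ0
    · rcases l with ⟨_ | i, s⟩
      · simp only [thr]; positivity
      · simp only [thr]; positivity
    · intro a _ b _ hab
      exact hpair a b hab
    · intro a ha
      have : lab a = l := by simpa using ha
      rw [← this]
      exact hcorr a
  have hcard : (N : ℝ) = ∑ l : Option (Fin n) × Bool,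
      ((univ.filter (fun a => lab a = l)).card : ℝ) := by
    have h1 : (univ : Finset (Fin N)).card = ∑ l : Option (Fin n) × Bool,
        (univ.filter (fun a => lab a = l)).card :=
      Finset.card_eq_sum_card_fiberwise (fun a _ => mem_univ _)
    rw [Finset.card_univ, Fintype.card_fin] at h1
    rw [← Nat.cast_sum, ← h1]
  have hnone : ∀ s, ((univ.filter (fun a => lab a = (none, s))).card : ℝ) ≤ 5 / α ^ 2 := by
    intro s
    have h := hfib (none, s)
    simp only [thr] at h
    rw [le_div_iff₀ hα2]
    by_contra hcon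
    push Not at hcon
    have hc0 : (0 : ℝ) ≤ ((univ.filter (fun a => lab a = (none, s))).card : ℝ) := by positivity
    have h2 : α ^ 2 * (7 / 32) ≤ (α * (1 / 2)) ^ 2 - γ := by nlinarith
    have h3 := mul_le_mul_of_nonneg_left h2 hc0
    nlinarith
  have hsome : ∀ i s, ((univ.filter (fun a => lab a = (some i, s))).card : ℝ) ≤
      10 * K ^ 2 * r ^ 2 / α ^ 2 := by
    intro i s
    have h := hfib (some i, s)
    simp only [thr] at h
    have e : (α * (3 / (8 * K * (r : ℝ)))) ^ 2 - γ = 7 * α ^ 2 / (64 * K ^ 2 * r ^ 2) := by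
      rw [hγ]; field_simp; norm_num
    rw [e] at h
    have hpos : (0 : ℝ) < 64 * K ^ 2 * r ^ 2 := by positivity
    rw [mul_div_assoc', div_le_one hpos] at h
    rw [le_div_iff₀ hα2]
    nlinarith
  rw [hcard, Fintype.sum_prod_type]
  simp only [Fintype.sum_bool, Fintype.sum_option]
  have h1 : ∑ i : Fin n, (((univ.filter (fun a => lab a = (some i, true))).card : ℝ) +
      ((univ.filter (fun a => lab a = (some i, false))).card : ℝ)) ≤
      ∑ _i : Fin n, 20 * K ^ 2 * (r : ℝ) ^ 2 / α ^ 2 := by
    apply Finset.sum_le_sum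
    intro i _
    have h2 := hsome i true
    have h3 := hsome i false
    have h4 : 20 * K ^ 2 * (r : ℝ) ^ 2 / α ^ 2 =
        10 * K ^ 2 * (r : ℝ) ^ 2 / α ^ 2 + 10 * K ^ 2 * (r : ℝ) ^ 2 / α ^ 2 := by ring
    rw [h4]
    linarith
  rw [Finset.sum_const, Finset.card_univ, Fintype.card_fin, nsmul_eq_mul] at h1
  have h5 := hnone true
  have h6 := hnone false
  have h7 : (20 * K ^ 2 * (r : ℝ) ^ 2 * n + 10) / α ^ 2 =
      n * (20 * K ^ 2 * (r : ℝ) ^ 2 / α ^ 2) + (5 / α ^ 2 + 5 / α ^ 2) := by ring
  rw [h7]
  linarith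

end Pool.Agent.Results.MP_52fefc_lc.PoincareDistributions
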