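import Mathlib

namespace Pool.Agent.Results.MP_52fefc_lc.QuasiUniformFamilies

open Finset

/-! ### The objects -/

/-- The sign `+1` for `true`, `-1` for `false`. -/
def sgn (b : Bool) : ℝ := if b then 1 else -1

/-- A decision list of length `r` on `{0,1}^n`: the `k`-th literal is the one on the variable
`var k` that is true exactly when this variable equals `pol k` (so it is `x_{var k}` if `pol k`
is true and `1 - x_{var k}` otherwise), its output is `out k`, and `dflt` is the default output. -/
structure DList (n r : ℕ) where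
  var : Fin r → Fin n
  pol : Fin r → Bool
  out : Fin r → Bool
  dflt : Bool

/-- The value of a decision list at `x`: the output at the least satisfied literal, the default
output if no literal is satisfied. -/
noncomputable def DList.value {n r : ℕ} (L : DList n r) (x : Fin n → Bool) : ℝ :=
  if h : (univ.filter (fun k : Fin r => x (L.var k) = L.pol k)).Nonempty
  then sgn (L.out ((univ.filter (fun k : Fin r => x (L.var k) = L.pol k)).min' h))
  else sgn L.dflt

/-- The `k`-th entry (variable, polarity, output) of a decision list. -/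
def DList.entry {n r : ℕ} (L : DList n r) (k : Fin r) : Fin n × Bool × Bool :=
  (L.var k, L.pol k, L.out k)

/-- `D` is a probability distribution on `{0,1}^n`. -/
def IsDistribution {n : ℕ} (D : (Fin n → Bool) → ℝ) : Prop :=
  (∀ x, 0 ≤ D x) ∧ ∑ x, D x = 1

/-- `B`-quasi-uniformity of a family indexed by `U` together with functions `code c` (`c ∈ K`) on
`U`: for a uniformly random member of the family and any two different indices `c`, `c'`, the
probability that the `c`-th code is `a` and the `c'`-th code is `b` is at most `B` times the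
product of the two single probabilities. -/
def QuasiUniform {K U E : Type} [Fintype U] [DecidableEq E] (B : ℝ)
    (code : K → U → E) : Prop :=
  ∀ c c' : K, c ≠ c' → ∀ a b : E,
    (Fintype.card U : ℝ) * (univ.filter (fun u => code c u = a ∧ code c' u = b)).card ≤
      B * (univ.filter (fun u => code c u = a)).card *
        (univ.filter (fun u => code c' u = b)).card

/-- The functions `code c` (`c ∈ K`) describe the family `F` of length-`r` decision lists: the
positions are cut into `m` consecutive blocks by the monotone map `blk`, the blocks are grouped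
(arbitrarily) into clusters by the map `cl`, and the entries of `F u` at the positions of the blocks
of cluster `c` depend only on `code c u`. -/
def Describes {n r m : ℕ} {K U E : Type} (F : U → DList n r) (blk : Fin r → Fin m)
    (cl : Fin m → K) (code : K → U → E) : Prop :=
  Monotone blk ∧ ∀ (k : Fin m) (u v : U), code (cl k) u = code (cl k) v →
    ∀ p : Fin r, blk p = k → (F u).entry p = (F v).entry p

/-! ### General lemmas -/

lemma abs_sgn (b : Bool) : |sgn b| = 1 := by
  cases b <;> simp [sgn]

lemma sum_sq_le {U X : Type*} [Fintype X] [DecidableEq U] (D : X → ℝ) (hD1 : ∑ x, D x = 1)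
    (val : U → X → ℝ) (hval : ∀ u x, |val u x| = 1) (γ : ℝ) (hγ : 0 ≤ γ)
    (corr : ∀ u v, u ≠ v → |∑ x, D x * (val u x * val v x)| ≤ γ)
    (S : Finset U) (c : U → ℝ) (hc : ∀ u, |c u| = 1) :
    ∑ x, D x * (∑ v ∈ S, c v * val v x) ^ 2 ≤ (S.card : ℝ) ^ 2 * γ + S.card := by
  have h1 : ∑ x, D x * (∑ v ∈ S, c v * val v x) ^ 2 =
      ∑ u ∈ S, ∑ v ∈ S, c u * c v * ∑ x, D x * (val u x * val v x) := by
    have h : ∀ x, D x * (∑ v ∈ S, c v * val v x) ^ 2 =
        ∑ u ∈ S, ∑ v ∈ S, c u * c v * (D x * (val u x * val v x)) := by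
      intro x
      rw [sq, Finset.sum_mul_sum, Finset.mul_sum]
      refine Finset.sum_congr rfl fun u _ => ?_
      rw [Finset.mul_sum]
      refine Finset.sum_congr rfl fun v _ => ?_
      ring
    rw [Finset.sum_congr rfl (fun x _ => h x), Finset.sum_comm]
    refine Finset.sum_congr rfl fun u _ => ?_
    rw [Finset.sum_comm]
    refine Finset.sum_congr rfl fun v _ => ?_
    rw [Finset.mul_sum]
  rw [h1]
  have hvv : ∀ u x, val u x * val u x = 1 := by
    intro u x
    rw [← abs_mul_abs_self, hval]; norm_num
  have h2 : ∀ u ∈ S, ∀ v ∈ S, c u * c v * ∑ x, D x * (val u x * val v x) ≤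
      γ + if u = v then 1 else 0 := by
    intro u _ v _
    by_cases huv : u = v
    · subst huv
      have h3 : ∑ x, D x * (val u x * val u x) = 1 := by
        simp [hvv, hD1]
      rw [h3]
      have hcu : c u * c u = 1 := by
        rw [← abs_mul_abs_self, hc]; norm_num
      rw [if_pos rfl, hcu]
      linarith
    · rw [if_neg huv, add_zero]
      calc c u * c v * ∑ x, D x * (val u x * val v x)
          ≤ |c u * c v * ∑ x, D x * (val u x * val v x)| := le_abs_self _
        _ = |∑ x, D x * (val u x * val v x)| := by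
            rw [abs_mul, abs_mul, hc, hc]; ring
        _ ≤ γ := corr u v huv
  calc ∑ u ∈ S, ∑ v ∈ S, c u * c v * ∑ x, D x * (val u x * val v x)
      ≤ ∑ u ∈ S, ∑ v ∈ S, (γ + if u = v then 1 else 0) :=
        Finset.sum_le_sum fun u hu => Finset.sum_le_sum fun v hv => h2 u hu v hv
    _ = ∑ u ∈ S, ((S.card : ℝ) * γ + 1) := by
        refine Finset.sum_congr rfl fun u hu => ?_
        rw [Finset.sum_add_distrib, Finset.sum_const, nsmul_eq_mul, Finset.sum_ite_eq,
          if_pos hu]
    _ = (S.card : ℝ) ^ 2 * γ + S.card := by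
        rw [Finset.sum_const, nsmul_eq_mul]; ring

lemma seq_lemma (a : ℕ → ℝ) (t : ℝ) (ht : 0 ≤ t) (r : ℕ) :
    min (∑ i ∈ range r, a i) t ≤
      ∑ k ∈ range r, (if ∑ i ∈ range k, a i ≤ t then a k else 0) := by
  induction r with
  | zero => simp [ht]
  | succ r ih =>
    rw [sum_range_succ, sum_range_succ]
    by_cases h : ∑ i ∈ range r, a i ≤ t
    · rw [if_pos h]
      rw [min_eq_left h] at ih
      refine (min_le_left _ _).trans ?_
      linarith
    · rw [if_neg h]
      push Not at h
      rw [min_eq_right h.le] at ih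
      refine (min_le_right _ _).trans ?_
      linarith

lemma sum_ge {U : Type*} (C : Finset U) (w : U → ℝ) (P : U → Prop) [DecidablePred P]
    (h1 : ∀ v ∈ C, ¬ P v → w v = 1) (h2 : ∀ v ∈ C, -1 ≤ w v)
    (hb : ((C.filter P).card : ℝ) ≤ C.card / 8) :
    (3 / 4) * (C.card : ℝ) ≤ ∑ v ∈ C, w v := by
  have h3 : ∀ v ∈ C, 1 - 2 * (if P v then (1 : ℝ) else 0) ≤ w v := by
    intro v hv
    split_ifs with h
    · have := h2 v hv; linarith
    · rw [h1 v hv h]; norm_num
  have h4 : ∑ v ∈ C, (1 - 2 * (if P v then (1 : ℝ) else 0)) =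
      (C.card : ℝ) - 2 * ((C.filter P).card : ℝ) := by
    rw [Finset.sum_sub_distrib, ← Finset.mul_sum, Finset.sum_boole]; simp
  have h5 := Finset.sum_le_sum h3
  rw [h4] at h5
  linarith

lemma count_le {U E : Type*} [Fintype U] [DecidableEq U] [Fintype E] [DecidableEq E]
    (ej ek : U → E) (H : E → Prop) [DecidablePred H] (B : ℝ) (b : E)
    (QU : ∀ a, (Fintype.card U : ℝ) * (univ.filter (fun w => ej w = a ∧ ek w = b)).card ≤
      B * (univ.filter (fun w => ej w = a)).card * (univ.filter (fun w => ek w = b)).card) :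
    (Fintype.card U : ℝ) * (univ.filter (fun w => ek w = b ∧ H (ej w))).card ≤
      B * (univ.filter (fun w => H (ej w))).card * (univ.filter (fun w => ek w = b)).card := by
  have h1 : (univ.filter (fun w => ek w = b ∧ H (ej w))).card =
      ∑ a ∈ univ.filter H, (univ.filter (fun w => ej w = a ∧ ek w = b)).card := by
    rw [Finset.card_eq_sum_card_fiberwise (f := ej) (t := univ.filter H)]
    · refine Finset.sum_congr rfl fun a ha => ?_
      congr 1
      ext w
      simp only [mem_filter, mem_univ, true_and] at ha ⊢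
      constructor
      · rintro ⟨⟨h1, h2⟩, h3⟩
        exact ⟨h3, h1⟩
      · rintro ⟨h1, h2⟩
        subst h1
        exact ⟨⟨h2, ha⟩, rfl⟩
    · intro w hw
      simp only [coe_filter, mem_univ, true_and, Set.mem_ofPred_eq] at hw ⊢
      exact hw.2
  have h2 : (univ.filter (fun w => H (ej w))).card =
      ∑ a ∈ univ.filter H, (univ.filter (fun w => ej w = a)).card := by
    rw [Finset.card_eq_sum_card_fiberwise (f := ej) (t := univ.filter H)]
    · refine Finset.sum_congr rfl fun a ha => ?_
      congr 1
      ext w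
      simp only [mem_filter, mem_univ, true_and] at ha ⊢
      constructor
      · rintro ⟨h1, h2⟩
        exact h2
      · intro h1
        subst h1
        exact ⟨ha, rfl⟩
    · intro w hw
      simp only [coe_filter, mem_univ, true_and, Set.mem_ofPred_eq] at hw ⊢
      exact hw
  rw [h1, h2]
  push_cast
  rw [Finset.mul_sum, Finset.mul_sum, Finset.sum_mul]
  exact Finset.sum_le_sum fun a _ => QU a

/-! ### The core inequality -/

theorem core {U X E K : Type*} [Fintype U] [Nonempty U] [DecidableEq U] [Fintype X]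
    [Fintype E] [DecidableEq E]
    (r : ℕ) (hr : 1 ≤ r) (B : ℝ) (hB : 1 ≤ B) (γ : ℝ) (hγ : 0 ≤ γ)
    (D : X → ℝ) (hD0 : ∀ x, 0 ≤ D x) (hD1 : ∑ x, D x = 1)
    (val : U → X → ℝ) (hval : ∀ u x, |val u x| = 1)
    (cl : ℕ → K) (e : K → U → E) (hit : ℕ → U → X → Prop)
    (d : U → ℝ) (hd : ∀ u, |d u| = 1)
    (P0 : ∀ k < r, ∀ u v x, e (cl k) u = e (cl k) v → hit k u x → hit k v x)
    (P1 : ∀ u v x k, k < r → e (cl k) u = e (cl k) v → hit k u x → (∀ j < k, ¬ hit j u x) →
      (∀ j < k, ¬ hit j v x) → val u x = val v x)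
    (P2 : ∀ u x, (∀ j < r, ¬ hit j u x) → val u x = d u)
    (QU : ∀ j k, j < k → k < r → cl j ≠ cl k → ∀ a b,
      (Fintype.card U : ℝ) * (univ.filter (fun w => e (cl j) w = a ∧ e (cl k) w = b)).card ≤
        B * (univ.filter (fun w => e (cl j) w = a)).card *
          (univ.filter (fun w => e (cl k) w = b)).card)
    (corr : ∀ u v, u ≠ v → |∑ x, D x * (val u x * val v x)| ≤ γ) :
    1 / (16 * B * r) ≤ γ + (Fintype.card E : ℝ) / Fintype.card U := by
  classical
  set N : ℝ := (Fintype.card U : ℝ) with hN
  have hNpos : 0 < N := by rw [hN]; exact_mod_cast Fintype.card_pos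
  set t : ℝ := 1 / (8 * B) with ht
  have htpos : 0 < t := by positivity
  have ht8 : t ≤ 1 / 8 := by
    rw [ht]; apply one_div_le_one_div_of_le <;> linarith
  have hBt : B * t = 1 / 8 := by rw [ht]; field_simp
  -- hit at `k`, the first one within the cluster of `k`
  obtain ⟨fh, hfh⟩ : ∃ fh : ℕ → U → X → Prop, ∀ k u x,
      fh k u x ↔ (hit k u x ∧ ∀ j < k, cl j = cl k → ¬ hit j u x) :=
    ⟨_, fun _ _ _ => Iff.rfl⟩
  have hfh0 : ∀ k < r, ∀ u v x, e (cl k) u = e (cl k) v → fh k u x → fh k v x := by
    intro k hk u v x he h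
    rw [hfh] at h ⊢
    refine ⟨P0 k hk u v x he h.1, fun j hj hcl hh => h.2 j hj hcl ?_⟩
    refine P0 j (hj.trans hk) v u x ?_ hh
    rw [hcl]; exact he.symm
  -- any hit before `k` gives a first hit `fh` before `k`
  have hleast : ∀ k v x, (∃ j < k, hit j v x) → ∃ j < k, fh j v x ∧ ∀ i < j, ¬ hit i v x := by
    intro k v x hex
    have hex' : ∃ j, j < k ∧ hit j v x := hex
    have h1 := Nat.find_spec hex'
    have h2 : ∀ i < Nat.find hex', ¬ hit i v x := by
      intro i hi hh
      exact Nat.find_min hex' hi ⟨hi.trans h1.1, hh⟩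
    refine ⟨Nat.find hex', h1.1, ?_, h2⟩
    rw [hfh]
    exact ⟨h1.2, fun j hj _ => h2 j hj⟩
  obtain ⟨ρ, hρ⟩ : ∃ ρ : X → ℕ → ℝ, ∀ x k,
      ρ x k = ((univ.filter (fun w => fh k w x)).card : ℝ) / N := ⟨_, fun _ _ => rfl⟩
  have hρN : ∀ x k, ((univ.filter (fun w => fh k w x)).card : ℝ) = N * ρ x k := by
    intro x k; rw [hρ]; field_simp
  obtain ⟨C, hC⟩ : ∃ C : ℕ → U → Finset U, ∀ k u,
      C k u = univ.filter (fun v => e (cl k) v = e (cl k) u) := ⟨_, fun _ _ => rfl⟩
  have hCpos : ∀ k u, 0 < ((C k u).card : ℝ) := by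
    intro k u
    have : u ∈ C k u := by rw [hC]; simp
    exact_mod_cast Finset.card_pos.mpr ⟨u, this⟩
  obtain ⟨G, hG⟩ : ∃ G : ℕ → U → X → ℝ, ∀ k u x,
      G k u x = (∑ v ∈ C k u, val v x) ^ 2 / ((C k u).card : ℝ) ^ 2 := ⟨_, fun _ _ _ => rfl⟩
  have hG0 : ∀ k u x, 0 ≤ G k u x := by
    intro k u x; rw [hG]; exact div_nonneg (sq_nonneg _) (sq_nonneg _)
  -- (1) upper bounds
  have h1 : ∀ k u, ∑ x, D x * G k u x ≤ γ + 1 / (C k u).card := by
    intro k u
    have h := sum_sq_le D hD1 val hval γ hγ corr (C k u) (fun _ => 1) (by simp)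
    simp only [one_mul] at h
    have h' : ∑ x, D x * G k u x =
        (∑ x, D x * (∑ v ∈ C k u, val v x) ^ 2) / ((C k u).card : ℝ) ^ 2 := by
      rw [Finset.sum_div]
      refine Finset.sum_congr rfl fun x _ => ?_
      rw [hG]; ring
    rw [h', div_le_iff₀ (pow_pos (hCpos k u) 2)]
    refine h.trans (le_of_eq ?_)
    have hc := hCpos k u
    clear h h'
    generalize ((C k u).card : ℝ) = c at hc ⊢
    field_simp
  have h1' : ∀ k, ∑ u, (1 / ((C k u).card : ℝ)) ≤ Fintype.card E := by
    intro k
    rw [← Finset.sum_fiberwise (s := univ) (g := e (cl k))]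
    calc ∑ a : E, ∑ u ∈ univ.filter (fun u => e (cl k) u = a), (1 / ((C k u).card : ℝ))
        ≤ ∑ a : E, (1 : ℝ) := by
          refine Finset.sum_le_sum fun a _ => ?_
          have h : ∀ u ∈ univ.filter (fun u => e (cl k) u = a), (1 / ((C k u).card : ℝ)) =
              1 / ((univ.filter (fun u => e (cl k) u = a)).card : ℝ) := by
            intro u hu
            simp only [mem_filter, mem_univ, true_and] at hu
            rw [hC, hu]
          rw [Finset.sum_congr rfl h, Finset.sum_const, nsmul_eq_mul]
          by_cases h0 : ((univ.filter (fun u => e (cl k) u = a)).card : ℝ) = 0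
          · rw [h0]; simp
          · rw [mul_one_div_cancel h0]
      _ = Fintype.card E := by simp
  have h2 : ∑ x, D x * ∑ k ∈ range r, ∑ u, G k u x ≤ r * (N * γ + Fintype.card E) := by
    have h : ∑ x, D x * ∑ k ∈ range r, ∑ u, G k u x =
        ∑ k ∈ range r, ∑ u, ∑ x, D x * G k u x := by
      simp_rw [Finset.mul_sum]
      rw [Finset.sum_comm]
      refine Finset.sum_congr rfl fun k _ => ?_
      rw [Finset.sum_comm]
    rw [h]
    calc ∑ k ∈ range r, ∑ u, ∑ x, D x * G k u x
        ≤ ∑ k ∈ range r, ∑ u : U, (γ + 1 / ((C k u).card : ℝ)) :=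
          Finset.sum_le_sum fun k _ => Finset.sum_le_sum fun u _ => h1 k u
      _ ≤ ∑ k ∈ range r, (N * γ + Fintype.card E) := by
          refine Finset.sum_le_sum fun k _ => ?_
          rw [Finset.sum_add_distrib, Finset.sum_const, nsmul_eq_mul, Finset.card_univ]
          have := h1' k
          linarith
      _ = r * (N * γ + Fintype.card E) := by
          rw [Finset.sum_const, nsmul_eq_mul, Finset.card_range]
  -- (2) pointwise lower bound for the fiber averages
  have h3 : ∀ x k u, k < r → fh k u x → ∑ j ∈ range k, ρ x j ≤ t →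
      9 / 16 ≤ G k u x := by
    intro x k u hk hhit hR
    have hbad : (((C k u).filter (fun v => ∃ j < k, hit j v x)).card : ℝ) ≤
        (C k u).card / 8 := by
      have hsub : (C k u).filter (fun v => ∃ j < k, hit j v x) ⊆
          ((range k).filter (fun j => cl j ≠ cl k)).biUnion
            (fun j => univ.filter (fun v => e (cl k) v = e (cl k) u ∧ fh j v x)) := by
        intro v hv
        rw [hC] at hv
        simp only [mem_filter, mem_univ, true_and] at hv
        obtain ⟨hv1, hv2⟩ := hv
        obtain ⟨j, hj, hjv, hjmin⟩ := hleast k v x hv2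
        have hkv : fh k v x := hfh0 k hk u v x hv1.symm hhit
        rw [hfh] at hkv
        have hne : cl j ≠ cl k := fun hcl => hkv.2 j hj hcl ((hfh _ _ _).mp hjv).1
        simp only [mem_biUnion, mem_range, mem_filter, mem_univ, true_and]
        exact ⟨j, ⟨hj, hne⟩, hv1, hjv⟩
      have hcard := (Finset.card_le_card hsub).trans Finset.card_biUnion_le
      have hcard' : (((C k u).filter (fun v => ∃ j < k, hit j v x)).card : ℝ) ≤
          ∑ j ∈ (range k).filter (fun j => cl j ≠ cl k),
            ((univ.filter (fun v => e (cl k) v = e (cl k) u ∧ fh j v x)).card : ℝ) := by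
        exact_mod_cast hcard
      have hρ0 : ∀ j, 0 ≤ ρ x j := by
        intro j
        rw [hρ]
        exact div_nonneg (Nat.cast_nonneg _) hNpos.le
      have hCB : 0 ≤ B * ((C k u).card : ℝ) :=
        mul_nonneg (by linarith) (hCpos k u).le
      have hj : ∀ j ∈ (range k).filter (fun j => cl j ≠ cl k),
          ((univ.filter (fun v => e (cl k) v = e (cl k) u ∧ fh j v x)).card : ℝ) ≤
            B * (C k u).card * ρ x j := by
        intro j hj
        have hjk : j < k := Finset.mem_range.mp (Finset.mem_filter.mp hj).1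
        have hne : cl j ≠ cl k := (Finset.mem_filter.mp hj).2
        have h := count_le (e (cl j)) (e (cl k))
          (fun a => ∃ w, e (cl j) w = a ∧ fh j w x) B (e (cl k) u)
          (fun a => QU j k hjk hk hne a (e (cl k) u))
        have hiff : ∀ w, (∃ w', e (cl j) w' = e (cl j) w ∧ fh j w' x) ↔ fh j w x := by
          intro w
          constructor
          · rintro ⟨w', h1, h2⟩
            exact hfh0 j (hjk.trans hk) w' w x h1 h2
          · intro h1
            exact ⟨w, rfl, h1⟩
        simp only [hiff] at h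
        rw [hρN x j, ← hC k u, ← hN] at h
        have h' : N * ((univ.filter (fun v => e (cl k) v = e (cl k) u ∧ fh j v x)).card : ℝ) ≤
            N * (B * (C k u).card * ρ x j) := by
          refine h.trans (le_of_eq ?_)
          ring
        exact le_of_mul_le_mul_left h' hNpos
      have hsum := Finset.sum_le_sum hj
      have hsum2 : ∑ j ∈ (range k).filter (fun j => cl j ≠ cl k), B * (C k u).card * ρ x j ≤
          ∑ j ∈ range k, B * (C k u).card * ρ x j :=
        Finset.sum_le_sum_of_subset_of_nonneg (Finset.filter_subset _ _)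
          (fun j _ _ => mul_nonneg hCB (hρ0 j))
      rw [← Finset.mul_sum (range k)] at hsum2
      have hfin := mul_le_mul_of_nonneg_left hR hCB
      have heq : B * ((C k u).card : ℝ) * t = (C k u).card / 8 := by
        have : B * ((C k u).card : ℝ) * t = (B * t) * (C k u).card := by ring
        rw [this, hBt]; ring
      linarith
    obtain ⟨v0, hv0, hno0⟩ : ∃ v0 ∈ C k u, ¬ ∃ j < k, hit j v0 x := by
      by_contra hcon
      push Not at hcon
      have hall : (C k u).filter (fun v => ∃ j < k, hit j v x) = C k u := by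
        apply Finset.filter_true_of_mem
        intro v hv
        exact hcon v hv
      rw [hall] at hbad
      have := hCpos k u
      linarith
    have hhit0 : hit k v0 x := by
      rw [hC] at hv0
      simp only [mem_filter, mem_univ, true_and] at hv0
      exact P0 k hk u v0 x hv0.symm ((hfh _ _ _).mp hhit).1
    have hge := sum_ge (C k u) (fun v => val v0 x * val v x)
      (fun v => ∃ j < k, hit j v x) (by
        intro v hv hno
        rw [hC] at hv hv0
        simp only [mem_filter, mem_univ, true_and] at hv hv0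
        have : val v0 x = val v x := P1 v0 v x k hk (hv0.trans hv.symm) hhit0
          (fun j hj hh => hno0 ⟨j, hj, hh⟩) (fun j hj hh => hno ⟨j, hj, hh⟩)
        rw [this, ← abs_mul_abs_self, hval]; norm_num) (by
        intro v hv
        have : |val v0 x * val v x| ≤ 1 := by
          rw [abs_mul, hval, hval]; norm_num
        exact (abs_le.mp this).1) hbad
    rw [← Finset.mul_sum] at hge
    have hsq : (∑ v ∈ C k u, val v x) ^ 2 = (val v0 x * ∑ v ∈ C k u, val v x) ^ 2 := by
      rw [mul_pow, ← sq_abs (val v0 x), hval]; ring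
    rw [hG, le_div_iff₀ (pow_pos (hCpos k u) 2), hsq]
    have hc := hCpos k u
    have h34 : 0 ≤ (3 / 4) * ((C k u).card : ℝ) := mul_nonneg (by norm_num) hc.le
    calc 9 / 16 * ((C k u).card : ℝ) ^ 2 = ((3 / 4) * ((C k u).card : ℝ)) ^ 2 := by ring
      _ ≤ (val v0 x * ∑ v ∈ C k u, val v x) ^ 2 := pow_le_pow_left₀ h34 hge 2
  -- (3) on the bad set
  have h4 : ∀ x, t ≤ ∑ j ∈ range r, ρ x j →
      9 / 16 * N * t ≤ ∑ k ∈ range r, ∑ u, G k u x := by
    intro x hx
    have hseq := seq_lemma (ρ x) t htpos.le r
    rw [min_eq_right hx] at hseq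
    have hk : ∀ k ∈ range r, 9 / 16 * N * (if ∑ i ∈ range k, ρ x i ≤ t then ρ x k else 0) ≤
        ∑ u, G k u x := by
      intro k hk
      have hkr : k < r := Finset.mem_range.mp hk
      split_ifs with hR
      · have h : ∑ u ∈ univ.filter (fun w => fh k w x), (9 / 16 : ℝ) ≤
            ∑ u ∈ univ.filter (fun w => fh k w x), G k u x := by
          refine Finset.sum_le_sum fun u hu => ?_
          simp only [mem_filter, mem_univ, true_and] at hu
          exact h3 x k u hkr hu hR
        rw [Finset.sum_const, nsmul_eq_mul, hρN x k] at h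
        have h' : ∑ u ∈ univ.filter (fun w => fh k w x), G k u x ≤ ∑ u, G k u x :=
          Finset.sum_le_sum_of_subset_of_nonneg (Finset.filter_subset _ _)
            (fun u _ _ => hG0 k u x)
        linarith
      · rw [mul_zero]
        exact Finset.sum_nonneg fun u _ => hG0 k u x
    have hsum := Finset.sum_le_sum hk
    rw [← Finset.mul_sum] at hsum
    have hN16 : 0 ≤ 9 / 16 * N := by positivity
    exact (mul_le_mul_of_nonneg_left hseq hN16).trans hsum
  -- (4) on the good set
  have h5 : ∀ x, ∑ j ∈ range r, ρ x j < t → 9 / 16 * N ^ 2 ≤ (∑ u, d u * val u x) ^ 2 := by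
    intro x hx
    have hbad : (((univ : Finset U).filter (fun v => ∃ j < r, hit j v x)).card : ℝ) ≤
        (univ : Finset U).card / 8 := by
      have hsub : (univ : Finset U).filter (fun v => ∃ j < r, hit j v x) ⊆
          (range r).biUnion (fun j => univ.filter (fun v => fh j v x)) := by
        intro v hv
        simp only [mem_filter, mem_univ, true_and] at hv
        obtain ⟨j, hj, hv2, _⟩ := hleast r v x hv
        simp only [mem_biUnion, mem_range, mem_filter, mem_univ, true_and]
        exact ⟨j, hj, hv2⟩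
      have hcard := (Finset.card_le_card hsub).trans Finset.card_biUnion_le
      have hcard' : (((univ : Finset U).filter (fun v => ∃ j < r, hit j v x)).card : ℝ) ≤
          ∑ j ∈ range r, ((univ.filter (fun v => fh j v x)).card : ℝ) := by
        exact_mod_cast hcard
      have heq : ∑ j ∈ range r, ((univ.filter (fun v => fh j v x)).card : ℝ) =
          N * ∑ j ∈ range r, ρ x j := by
        rw [Finset.mul_sum]
        exact Finset.sum_congr rfl fun j _ => hρN x j
      rw [heq] at hcard'
      have : N * ∑ j ∈ range r, ρ x j ≤ N * (1 / 8) :=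
        mul_le_mul_of_nonneg_left (hx.le.trans ht8) hNpos.le
      rw [Finset.card_univ, ← hN]
      linarith
    have hge := sum_ge (univ : Finset U) (fun v => d v * val v x)
      (fun v => ∃ j < r, hit j v x) (by
        intro v _ hno
        have : val v x = d v := P2 v x (fun j hj hh => hno ⟨j, hj, hh⟩)
        rw [this, ← abs_mul_abs_self, hd]; norm_num) (by
        intro v hv
        have : |d v * val v x| ≤ 1 := by
          rw [abs_mul, hd, hval]; norm_num
        exact (abs_le.mp this).1) hbad
    rw [Finset.card_univ, ← hN] at hge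
    have h34 : 0 ≤ (3 / 4) * N := by positivity
    calc 9 / 16 * N ^ 2 = ((3 / 4) * N) ^ 2 := by ring
      _ ≤ (∑ u, d u * val u x) ^ 2 := pow_le_pow_left₀ h34 hge 2
  have h6 : ∑ x, D x * (∑ u, d u * val u x) ^ 2 ≤ N ^ 2 * γ + N := by
    have h := sum_sq_le D hD1 val hval γ hγ corr univ d hd
    rwa [Finset.card_univ, ← hN] at h
  -- combination
  have h7 : ∀ x, 9 / 16 ≤ (∑ k ∈ range r, ∑ u, G k u x) / (N * t) +
      (∑ u, d u * val u x) ^ 2 / N ^ 2 := by
    intro x
    have hA : 0 ≤ (∑ k ∈ range r, ∑ u, G k u x) / (N * t) := by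
      refine div_nonneg (Finset.sum_nonneg fun k _ => Finset.sum_nonneg fun u _ => hG0 k u x) ?_
      positivity
    have hA' : 0 ≤ (∑ u, d u * val u x) ^ 2 / N ^ 2 := by positivity
    rcases le_or_gt t (∑ j ∈ range r, ρ x j) with hx | hx
    · have : 9 / 16 ≤ (∑ k ∈ range r, ∑ u, G k u x) / (N * t) := by
        rw [le_div_iff₀ (by positivity)]
        have := h4 x hx
        linarith
      linarith
    · have : 9 / 16 ≤ (∑ u, d u * val u x) ^ 2 / N ^ 2 := by
        rw [le_div_iff₀ (by positivity)]
        exact h5 x hx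
      linarith
  have h8 : 9 / 16 ≤ (r * (N * γ + Fintype.card E)) / (N * t) + (N ^ 2 * γ + N) / N ^ 2 := by
    have hsum : ∑ x, D x * (9 / 16 : ℝ) ≤ ∑ x, D x * ((∑ k ∈ range r, ∑ u, G k u x) / (N * t) +
        (∑ u, d u * val u x) ^ 2 / N ^ 2) :=
      Finset.sum_le_sum fun x _ => mul_le_mul_of_nonneg_left (h7 x) (hD0 x)
    rw [← Finset.sum_mul, hD1, one_mul] at hsum
    have heq : ∑ x, D x * ((∑ k ∈ range r, ∑ u, G k u x) / (N * t) +
        (∑ u, d u * val u x) ^ 2 / N ^ 2) =
        (∑ x, D x * ∑ k ∈ range r, ∑ u, G k u x) / (N * t) +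
          (∑ x, D x * (∑ u, d u * val u x) ^ 2) / N ^ 2 := by
      rw [Finset.sum_div, Finset.sum_div, ← Finset.sum_add_distrib]
      refine Finset.sum_congr rfl fun x _ => ?_
      ring
    rw [heq] at hsum
    have ha : (∑ x, D x * ∑ k ∈ range r, ∑ u, G k u x) / (N * t) ≤
        (r * (N * γ + Fintype.card E)) / (N * t) :=
      div_le_div_of_nonneg_right h2 (by positivity)
    have hb : (∑ x, D x * (∑ u, d u * val u x) ^ 2) / N ^ 2 ≤ (N ^ 2 * γ + N) / N ^ 2 :=
      div_le_div_of_nonneg_right h6 (by positivity)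
    linarith
  have hE1 : (1 : ℝ) ≤ Fintype.card E := by
    have : Nonempty E := ⟨e (cl 0) (Classical.arbitrary U)⟩
    exact_mod_cast Fintype.card_pos
  have hr1 : (1 : ℝ) ≤ r := by exact_mod_cast hr
  set q : ℝ := (Fintype.card E : ℝ) with hq
  have h9 : (r * (N * γ + q)) / (N * t) = 8 * B * r * (γ + q / N) := by
    rw [ht]; field_simp
  have h10 : (N ^ 2 * γ + N) / N ^ 2 ≤ γ + q / N := by
    have : (N ^ 2 * γ + N) / N ^ 2 = γ + 1 / N := by field_simp
    rw [this]
    have : 1 / N ≤ q / N := div_le_div_of_nonneg_right hE1 hNpos.le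
    linarith
  rw [h9] at h8
  have hBr : 1 ≤ B * r := by nlinarith
  have hz : 0 ≤ γ + q / N := by positivity
  have h11 : 9 / 16 ≤ 9 * (B * r) * (γ + q / N) := by nlinarith
  rw [div_le_iff₀ (by positivity)]
  nlinarith

lemma value_least {n r : ℕ} (L : DList n r) (x : Fin n → Bool) (k : Fin r)
    (hk : x (L.var k) = L.pol k) (hlt : ∀ j < k, x (L.var j) ≠ L.pol j) :
    L.value x = sgn (L.out k) := by
  have hmem : k ∈ univ.filter (fun k : Fin r => x (L.var k) = L.pol k) := by simp [hk]
  have hne : (univ.filter (fun k : Fin r => x (L.var k) = L.pol k)).Nonempty := ⟨k, hmem⟩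
  have hmin : (univ.filter (fun k : Fin r => x (L.var k) = L.pol k)).min' hne = k := by
    apply le_antisymm
    · exact Finset.min'_le _ _ hmem
    · apply Finset.le_min'
      intro j hj
      by_contra hcon
      exact hlt j (not_le.mp hcon) (by simpa using hj)
  unfold DList.value
  rw [dif_pos hne, hmin]

lemma value_none {n r : ℕ} (L : DList n r) (x : Fin n → Bool)
    (hno : ∀ j, x (L.var j) ≠ L.pol j) : L.value x = sgn L.dflt := by
  unfold DList.value
  rw [dif_neg]
  rintro ⟨k, hk⟩
  exact hno k (by simpa using hk)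

lemma abs_value {n r : ℕ} (L : DList n r) (x : Fin n → Bool) : |L.value x| = 1 := by
  unfold DList.value
  split_ifs <;> exact abs_sgn _

/-- The block version: `m` consecutive blocks of positions, grouped into clusters that are
described by codes in `E`, the codes of different clusters being pairwise `B`-quasi-uniform. -/
theorem blocks {n r m : ℕ} (hm : 1 ≤ m) (B : ℝ) (hB : 1 ≤ B) (γ : ℝ) (hγ : 0 ≤ γ)
    (D : (Fin n → Bool) → ℝ) (hD : IsDistribution D)
    (K U E : Type) [Fintype U] [Nonempty U] [Fintype E] [DecidableEq E] (F : U → DList n r)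
    (blk : Fin r → Fin m) (cl : Fin m → K) (code : K → U → E)
    (hcode : Describes F blk cl code) (hqu : QuasiUniform B code)
    (hcorr : ∀ u v, u ≠ v → |∑ x, D x * ((F u).value x * (F v).value x)| ≤ γ) :
    1 / (16 * B * m) ≤ γ + (Fintype.card E : ℝ) / (Fintype.card U : ℝ) := by
  classical
  obtain ⟨hmono, hdet⟩ := hcode
  refine core (U := U) (X := Fin n → Bool) (E := E) (K := K) m hm B hB γ hγ
      D hD.1 hD.2 (fun u x => (F u).value x) (fun u x => abs_value (F u) x)
      (fun k => if h : k < m then cl ⟨k, h⟩ else cl ⟨0, hm⟩) code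
      (fun k u x => ∃ p : Fin r, (blk p : ℕ) = k ∧ x ((F u).var p) = (F u).pol p)
      (fun u => sgn (F u).dflt) (fun u => abs_sgn _) ?_ ?_ ?_ ?_ hcorr
  · rintro k hk u v x he ⟨p, hp, hfire⟩
    simp only [dif_pos hk] at he
    have hent := hdet ⟨k, hk⟩ u v he p (Fin.ext hp)
    simp only [DList.entry, Prod.mk.injEq] at hent
    refine ⟨p, hp, ?_⟩
    rw [← hent.1, ← hent.2.1]
    exact hfire
  · rintro u v x k hk he ⟨p, hp, hfire⟩ hnu hnv
    simp only [dif_pos hk] at he
    have hne : (univ.filter (fun k : Fin r => x ((F u).var k) = (F u).pol k)).Nonempty :=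
      ⟨p, by simp [hfire]⟩
    obtain ⟨p0, hp0⟩ : ∃ p0, p0 =
      (univ.filter (fun k : Fin r => x ((F u).var k) = (F u).pol k)).min' hne := ⟨_, rfl⟩
    have hp0mem : x ((F u).var p0) = (F u).pol p0 := by
      have := Finset.min'_mem _ hne
      rw [← hp0] at this
      simpa using this
    have hp0min : ∀ j < p0, x ((F u).var j) ≠ (F u).pol j := by
      intro j hj hcon
      have : p0 ≤ j := by
        rw [hp0]
        exact Finset.min'_le _ _ (by simp [hcon])
      exact absurd hj (not_lt.mpr this)
    have hp0p : p0 ≤ p := by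
      by_contra hcon
      exact hp0min p (not_le.mp hcon) hfire
    have hblk0 : (blk p0 : ℕ) = k := by
      apply le_antisymm
      · have := hmono hp0p
        rw [← hp]
        exact_mod_cast this
      · by_contra hcon
        exact hnu _ (not_le.mp hcon) ⟨p0, rfl, hp0mem⟩
    have hentry : ∀ j : Fin r, (blk j : ℕ) = k → (F u).entry j = (F v).entry j :=
      fun j hj => hdet ⟨k, hk⟩ u v he j (Fin.ext hj)
    have he0 := hentry p0 hblk0
    simp only [DList.entry, Prod.mk.injEq] at he0
    have hu : (F u).value x = sgn ((F u).out p0) := value_least (F u) x p0 hp0mem hp0min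
    have hv : (F v).value x = sgn ((F v).out p0) := by
      refine value_least (F v) x p0 ?_ ?_
      · rw [← he0.1, ← he0.2.1]
        exact hp0mem
      · intro j hj hcon
        have hjk : (blk j : ℕ) ≤ k := by
          have := hmono hj.le
          rw [← hblk0]
          exact_mod_cast this
        rcases lt_or_eq_of_le hjk with hlt | heq
        · exact hnv _ hlt ⟨j, rfl, hcon⟩
        · have hej := hentry j heq
          simp only [DList.entry, Prod.mk.injEq] at hej
          apply hp0min j hj
          rw [hej.1, hej.2.1]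
          exact hcon
    show (F u).value x = (F v).value x
    rw [hu, hv, he0.2.2]
  · intro u x hno
    refine value_none (F u) x ?_
    intro j hcon
    exact hno (blk j) (blk j).2 ⟨j, rfl, hcon⟩
  · intro j k hjk hk hne a b
    exact hqu _ _ hne a b

/-- **Main theorem.** (1) Let `F` be a family of length-`r` decision lists, indexed by `U`, whose
positions are cut into `m` consecutive blocks, the blocks being grouped arbitrarily into clusters
`c ∈ K`, such that the entries of `F u` in the blocks of cluster `c` depend only on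
`code c u ∈ E`, the codes of different clusters being pairwise `B`-quasi-uniform. If the pairwise
correlations under some distribution `D` are at most `γ` in absolute value, then
`1 / (16 B m) ≤ γ + |E| / |U|`.
(2) In particular (each position being its own block and cluster, the code being the entry there) a
family of length-`r` decision lists with pairwise `B`-quasi-uniform entries whose pairwise
correlations under some distribution are at most `γ ≤ 1 / (32 B r)` has at most `128 B r n`
members. -/
theorem result :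
    (∀ (n r m : ℕ), 1 ≤ m → ∀ (B : ℝ), 1 ≤ B → ∀ (γ : ℝ), 0 ≤ γ →
      ∀ (D : (Fin n → Bool) → ℝ), IsDistribution D →
      ∀ (K U E : Type) [Fintype U] [Nonempty U] [Fintype E] [DecidableEq E]
        (F : U → DList n r) (blk : Fin r → Fin m) (cl : Fin m → K) (code : K → U → E),
        Describes F blk cl code → QuasiUniform B code →
        (∀ u v, u ≠ v → |∑ x, D x * ((F u).value x * (F v).value x)| ≤ γ) →
        1 / (16 * B * m) ≤ γ + (Fintype.card E : ℝ) / (Fintype.card U : ℝ)) ∧
    (∀ (n r : ℕ), 1 ≤ r → ∀ (B : ℝ), 1 ≤ B → ∀ (γ : ℝ), 0 ≤ γ → γ ≤ 1 / (32 * B * r) →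
      ∀ (D : (Fin n → Bool) → ℝ), IsDistribution D →
      ∀ (U : Type) [Fintype U] (F : U → DList n r),
        QuasiUniform B (fun (k : Fin r) (u : U) => (F u).entry k) →
        (∀ u v, u ≠ v → |∑ x, D x * ((F u).value x * (F v).value x)| ≤ γ) →
        (Fintype.card U : ℝ) ≤ 128 * B * r * n) := by
  refine ⟨?_, ?_⟩
  · intro n r m hm B hB γ hγ D hD K U E _ _ _ _ F blk cl code hcode hqu hcorr
    exact blocks hm B hB γ hγ D hD K U E F blk cl code hcode hqu hcorr
  · intro n r hr B hB γ hγ hle D hD U _ F hqu hcorr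
    rcases isEmpty_or_nonempty U with hU | hU
    · have : (Fintype.card U : ℝ) = 0 := by simp
      rw [this]
      positivity
    have hmain := blocks hr B hB γ hγ D hD (Fin r) U (Fin n × Bool × Bool) F (fun p => p)
      (fun p => p) (fun (k : Fin r) (u : U) => (F u).entry k)
      ⟨fun _ _ h => h, fun k u v h p hp => by subst hp; exact h⟩ hqu hcorr
    have hE : (Fintype.card (Fin n × Bool × Bool) : ℝ) = 4 * n := by
      simp [Fintype.card_prod]; ring
    rw [hE] at hmain
    have hNpos : 0 < (Fintype.card U : ℝ) := by exact_mod_cast Fintype.card_pos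
    have hr1 : (1 : ℝ) ≤ r := by exact_mod_cast hr
    set N : ℝ := (Fintype.card U : ℝ)
    have h16 : 1 / (16 * B * r) = 2 * (1 / (32 * B * r)) := by
      field_simp; norm_num
    rw [h16] at hmain
    have h1 : 1 / (32 * B * r) ≤ 4 * n / N := by linarith
    rw [div_le_div_iff₀ (by positivity) hNpos] at h1
    linarith

end Pool.Agent.Results.MP_52fefc_lc.QuasiUniformFamilies
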